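import Pool.Agent.Work.MP_f35e27_co.Defs

/-!
# The class of subgraphs of iterated blowups
-/

open Classical

namespace Pool.Agent.Work.MP_f35e27_co

namespace RGraph

variable {r : ℕ} {U V W X : Type}

lemma Contains.refl (H : RGraph r V) : H.Contains H :=
  ⟨Function.Embedding.refl _, fun e he => by simpa using he⟩

lemma Contains.trans {A : RGraph r U} {B : RGraph r V} {C : RGraph r W}
    (h₁ : C.Contains B) (h₂ : B.Contains A) : C.Contains A := by
  obtain ⟨φ, hφ⟩ := h₁
  obtain ⟨ψ, hψ⟩ := h₂
  refine ⟨ψ.trans φ, fun e he => ?_⟩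
  have := hφ _ (hψ e he)
  rwa [Finset.map_map] at this

lemma SubIteratedBlowup.mono {F : RGraph r W} {A : RGraph r U} {B : RGraph r V}
    (h : SubIteratedBlowup F B) (h' : B.Contains A) : SubIteratedBlowup F A := by
  obtain ⟨T, H, hH, hc⟩ := h
  exact ⟨T, H, hH, hc.trans h'⟩

lemma mem_blowup {H : RGraph r V} {v : V} {F : RGraph r W} {e : Finset ({x : V // x ≠ v} ⊕ W)}
    (hc : e.card = r) [inst : DecidableEq V] (h : e.image (collapse v) ∈ H.edges) :
    e ∈ (H.blowup v F).edges := by
  have he : inst = (fun a b => Classical.propDecidable (a = b)) := Subsingleton.elim _ _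
  subst he
  exact Or.inl ⟨hc, h⟩

/-- Blowing up a vertex is monotone. -/
lemma Contains.blowup {A : RGraph r U} {B : RGraph r V} (F : RGraph r W) (v : U)
    (φ : U ↪ V) (hφ : ∀ e ∈ A.edges, e.map φ ∈ B.edges) :
    (B.blowup (φ v) F).Contains (A.blowup v F) := by
  have hne : ∀ x : {x : U // x ≠ v}, φ x.1 ≠ φ v := fun x h => x.2 (φ.injective h)
  let g : {x : U // x ≠ v} ⊕ W → {x : V // x ≠ φ v} ⊕ W :=
    Sum.map (fun x => ⟨φ x.1, hne x⟩) id
  have hg : Function.Injective g := by
    apply Sum.map_injective.mpr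
    refine ⟨fun x y h => ?_, Function.injective_id⟩
    have : φ x.1 = φ y.1 := congrArg Subtype.val h
    exact Subtype.ext (φ.injective this)
  have hcol : ∀ z, collapse (φ v) (g z) = φ (collapse v z) := by
    rintro (z | z) <;> rfl
  refine ⟨⟨g, hg⟩, ?_⟩
  rintro e (⟨hc, he⟩ | ⟨f, hf, rfl⟩)
  · left
    refine ⟨by simpa using hc, ?_⟩
    have := hφ _ he
    rw [Finset.map_eq_image, Finset.image_image] at this
    rw [Finset.map_eq_image, Finset.image_image]
    convert this using 2
    funext z
    exact hcol z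
  · right
    refine ⟨f, hf, ?_⟩
    rw [Finset.map_map]
    rfl

/-- The complete `k`-level iterated blowup of `F`: the vertices are the words of length `k` over
the vertex set of `F`, and the edges are the `r`-sets of words which agree before some position
`j` and whose `j`-th letters form an edge of `F`. -/
def lex (F : RGraph r W) (k : ℕ) : RGraph r (Fin k → W) where
  edges := {e | e.card = r ∧ ∃ j : Fin k, (∀ x ∈ e, ∀ y ∈ e, ∀ i < j, x i = y i) ∧
    e.image (fun x => x j) ∈ F.edges}
  uniform := fun _ he => he.1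

/-- `H` with the vertices in `A` replaced by copies of `F`. -/
def partialLex (F : RGraph r W) (H : RGraph r V) (w₀ : W) (A : Finset V) :
    RGraph r {z : V × W // z.1 ∈ A ∨ z.2 = w₀} where
  edges := {e | e.card = r ∧ (e.image (fun z => z.1.1) ∈ H.edges ∨
    (∃ a, ∀ z ∈ e, z.1.1 = a) ∧ e.image (fun z => z.1.2) ∈ F.edges)}
  uniform := fun _ he => he.1

lemma partialLex_empty (hr : 2 ≤ r) (F : RGraph r W) (H : RGraph r V) (w₀ : W) :
    H.Contains (partialLex F H w₀ ∅) := by
  have hw : ∀ z : {z : V × W // z.1 ∈ (∅ : Finset V) ∨ z.2 = w₀}, z.1.2 = w₀ := by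
    intro z
    rcases z.2 with h | h
    · simp at h
    · exact h
  refine ⟨⟨fun z => z.1.1, fun z z' h => Subtype.ext (Prod.ext h ?_)⟩, ?_⟩
  · rw [hw z, hw z']
  · rintro e ⟨hc, he | ⟨⟨a, ha⟩, -⟩⟩
    · rwa [Finset.map_eq_image]
    · exfalso
      have h1 : e.card ≤ 1 := by
        rw [Finset.card_le_one]
        intro x hx y hy
        apply Subtype.ext
        apply Prod.ext
        · rw [ha x hx, ha y hy]
        · rw [hw x, hw y]
      omega

lemma partialLex_insert (F : RGraph r W) (H : RGraph r V) (w₀ : W) (A : Finset V)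
    (a : V) :
    ((partialLex F H w₀ A).blowup ⟨(a, w₀), Or.inr rfl⟩ F).Contains
      (partialLex F H w₀ (insert a A)) := by
  have key : ∀ z : {z : V × W // z.1 ∈ insert a A ∨ z.2 = w₀}, z.1.1 ≠ a →
      (z.1.1 ∈ A ∨ z.1.2 = w₀) := by
    intro z hz
    rcases z.2 with h | h
    · rcases Finset.mem_insert.mp h with h | h
      · exact absurd h hz
      · exact Or.inl h
    · exact Or.inr h
  have key2 : ∀ (z : {z : V × W // z.1 ∈ insert a A ∨ z.2 = w₀}) (hz : z.1.1 ≠ a),
      (⟨z.1, key z hz⟩ : {z : V × W // z.1 ∈ A ∨ z.2 = w₀}) ≠ ⟨(a, w₀), Or.inr rfl⟩ := by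
    intro z hz h
    exact hz (by rw [show z.1 = (a, w₀) from congrArg Subtype.val h])
  let g : {z : V × W // z.1 ∈ insert a A ∨ z.2 = w₀} →
      {x : {z : V × W // z.1 ∈ A ∨ z.2 = w₀} // x ≠ ⟨(a, w₀), Or.inr rfl⟩} ⊕ W :=
    fun z => if hz : z.1.1 = a then Sum.inr z.1.2 else Sum.inl ⟨⟨z.1, key z hz⟩, key2 z hz⟩
  have g1 : ∀ z, z.1.1 = a → g z = Sum.inr z.1.2 := by
    intro z hz
    simp only [g, hz, dif_pos]
  have g2 : ∀ z (hz : z.1.1 ≠ a), g z = Sum.inl ⟨⟨z.1, key z hz⟩, key2 z hz⟩ := by
    intro z hz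
    simp only [g, hz, dif_neg, not_false_eq_true]
  have hg : Function.Injective g := by
    intro z z' h
    by_cases hz : z.1.1 = a <;> by_cases hz' : z'.1.1 = a
    · rw [g1 z hz, g1 z' hz'] at h
      exact Subtype.ext (Prod.ext (hz.trans hz'.symm) (Sum.inr.inj h))
    · rw [g1 z hz, g2 z' hz'] at h
      exact absurd h (by simp)
    · rw [g2 z hz, g1 z' hz'] at h
      exact absurd h (by simp)
    · rw [g2 z hz, g2 z' hz'] at h
      have h3 := Sum.inl.inj h
      have h4 : z.1 = z'.1 := congrArg (fun t => t.1.1) h3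
      exact Subtype.ext h4
  have hcol : ∀ z, (collapse (⟨(a, w₀), Or.inr rfl⟩ : {z : V × W // z.1 ∈ A ∨ z.2 = w₀})
      (g z)).1.1 = z.1.1 := by
    intro z
    by_cases hz : z.1.1 = a
    · rw [g1 z hz, hz]; rfl
    · rw [g2 z hz]; rfl
  have hcol2 : ∀ z, z.1.1 ≠ a →
      (collapse (⟨(a, w₀), Or.inr rfl⟩ : {z : V × W // z.1 ∈ A ∨ z.2 = w₀}) (g z)).1 = z.1 := by
    intro z hz
    rw [g2 z hz]; rfl
  refine ⟨⟨g, hg⟩, ?_⟩
  rintro e ⟨hc, he⟩
  rcases he with he | ⟨⟨a', ha'⟩, he⟩
  · apply mem_blowup (by simpa using hc)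
    have himg : ((e.map ⟨g, hg⟩).image (collapse (⟨(a, w₀), Or.inr rfl⟩ :
        {z : V × W // z.1 ∈ A ∨ z.2 = w₀}))).image (fun z => z.1.1) ∈ H.edges := by
      rw [Finset.map_eq_image, Finset.image_image, Finset.image_image]
      convert he using 2
      funext z
      exact hcol z
    refine ⟨le_antisymm ?_ ?_, Or.inl himg⟩
    · refine Finset.card_image_le.trans ?_
      simp [hc]
    · rw [← H.uniform _ himg]
      exact Finset.card_image_le
  · by_cases haa : a' = a
    · right
      refine ⟨_, he, ?_⟩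
      subst haa
      ext y
      simp only [Finset.mem_map, Finset.mem_image, Function.Embedding.coeFn_mk]
      constructor
      · rintro ⟨z, hz, rfl⟩
        exact ⟨z.1.2, ⟨z, hz, rfl⟩, (g1 z (ha' z hz)).symm⟩
      · rintro ⟨w, ⟨z, hz, rfl⟩, rfl⟩
        exact ⟨z, hz, g1 z (ha' z hz)⟩
    · apply mem_blowup (by simpa using hc)
      have himg : ((e.map ⟨g, hg⟩).image (collapse (⟨(a, w₀), Or.inr rfl⟩ :
          {z : V × W // z.1 ∈ A ∨ z.2 = w₀}))).image (fun z => z.1.2) ∈ F.edges := by
        rw [Finset.map_eq_image, Finset.image_image, Finset.image_image]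
        convert he using 1
        apply Finset.image_congr
        intro z hz
        have hz' : z.1.1 ≠ a := by rw [ha' z hz]; exact haa
        show (collapse _ (g z)).1.2 = z.1.2
        rw [hcol2 z hz']
      refine ⟨le_antisymm ?_ ?_, Or.inr ⟨⟨a', ?_⟩, himg⟩⟩
      · refine Finset.card_image_le.trans ?_
        simp [hc]
      · rw [← F.uniform _ himg]
        exact Finset.card_image_le
      · intro z hz
        simp only [Finset.mem_image, Finset.mem_map, Function.Embedding.coeFn_mk] at hz
        obtain ⟨_, ⟨z', hz', rfl⟩, rfl⟩ := hz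
        rw [hcol z', ha' z' hz']

/-- Replacing every vertex of an iterated blowup by a copy of `F`. -/
lemma sub_partialLex (hr : 2 ≤ r) (F : RGraph r W) (H : RGraph r V) (w₀ : W)
    (hH : SubIteratedBlowup F H) (A : Finset V) :
    SubIteratedBlowup F (partialLex F H w₀ A) := by
  induction A using Finset.induction_on with
  | empty => exact hH.mono (partialLex_empty hr F H w₀)
  | insert a A _ ih =>
    obtain ⟨T, L, hL, φ, hφ⟩ := ih
    have h1 : (L.blowup (φ ⟨(a, w₀), Or.inr rfl⟩) F).Contains
        ((partialLex F H w₀ A).blowup ⟨(a, w₀), Or.inr rfl⟩ F) := Contains.blowup F _ φ hφ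
    exact ⟨_, _, IsIteratedBlowup.step L _ hL, h1.trans (partialLex_insert F H w₀ A a)⟩

lemma lex_succ [Fintype W] (hr : 2 ≤ r) (F : RGraph r W) (w₀ : W) (k : ℕ) :
    (partialLex F (lex F k) w₀ Finset.univ).Contains (lex F (k + 1)) := by
  let g : (Fin (k + 1) → W) → {z : (Fin k → W) × W // z.1 ∈ Finset.univ ∨ z.2 = w₀} :=
    fun x => ⟨(Fin.init x, x (Fin.last k)), Or.inl (Finset.mem_univ _)⟩
  have hg : Function.Injective g := by
    intro x y h
    have h1 : (Fin.init x, x (Fin.last k)) = (Fin.init y, y (Fin.last k)) :=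
      congrArg Subtype.val h
    have h2 := (Prod.mk.injEq _ _ _ _).mp h1
    rw [← Fin.snoc_init_self x, ← Fin.snoc_init_self y, h2.1, h2.2]
  refine ⟨⟨g, hg⟩, ?_⟩
  rintro e ⟨hc, j, hj, he⟩
  refine ⟨by simpa using hc, ?_⟩
  by_cases hjl : j = Fin.last k
  · right
    subst hjl
    obtain ⟨x₀, hx₀⟩ : e.Nonempty := by rw [← Finset.card_pos]; omega
    refine ⟨⟨Fin.init x₀, ?_⟩, ?_⟩
    · intro z hz
      simp only [Finset.mem_map, Function.Embedding.coeFn_mk] at hz
      obtain ⟨x, hx, rfl⟩ := hz
      funext i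
      exact hj x hx x₀ hx₀ _ (Fin.castSucc_lt_last i)
    · rw [Finset.map_eq_image, Finset.image_image]
      exact he
  · left
    have himg : ((e.map ⟨g, hg⟩).image (fun z => z.1.1)) = e.image Fin.init := by
      rw [Finset.map_eq_image, Finset.image_image]
      rfl
    obtain ⟨i, rfl⟩ : ∃ i : Fin k, j = i.castSucc := ⟨j.castPred hjl, by simp⟩
    have himg2 : (e.image (Fin.init : (Fin (k + 1) → W) → (Fin k → W))).image
        (fun x => x i) ∈ F.edges := by
      rw [Finset.image_image]
      exact he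
    have hgoal : e.image (Fin.init : (Fin (k + 1) → W) → (Fin k → W)) ∈ (lex F k).edges := by
      refine ⟨le_antisymm ?_ ?_, i, ?_, by convert himg2⟩
      · exact Finset.card_image_le.trans hc.le
      · rw [← F.uniform _ himg2]
        exact Finset.card_image_le
      · intro x hx y hy i' hi'
        obtain ⟨x', hx', rfl⟩ := Finset.mem_image.mp hx
        obtain ⟨y', hy', rfl⟩ := Finset.mem_image.mp hy
        exact hj x' hx' y' hy' _ (by simpa using hi')
    have hinst : ∀ (i₁ i₂ : DecidableEq (Fin k → W)),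
        @Finset.image _ _ i₁ (Fin.init : (Fin (k + 1) → W) → (Fin k → W)) e =
          @Finset.image _ _ i₂ (Fin.init : (Fin (k + 1) → W) → (Fin k → W)) e := by
      intro i₁ i₂
      rw [Subsingleton.elim i₁ i₂]
    have hgoal2 : (e.map ⟨g, hg⟩).image (fun z => z.1.1) ∈ (lex F k).edges := by
      rw [himg, hinst _ _]
      exact hgoal
    have hinst2 : ∀ (i₁ i₂ : DecidableEq (Fin k → W)),
        @Finset.image _ _ i₁ (fun z : {z : (Fin k → W) × W // z.1 ∈ Finset.univ ∨ z.2 = w₀} =>
          z.1.1) (e.map ⟨g, hg⟩) = @Finset.image _ _ i₂ (fun z => z.1.1) (e.map ⟨g, hg⟩) := by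
      intro i₁ i₂
      rw [Subsingleton.elim i₁ i₂]
    rw [hinst2 _ _]
    exact hgoal2
  

lemma sub_lex [Fintype W] (hr : 2 ≤ r) (F : RGraph r W) (w₀ : W) (k : ℕ) :
    SubIteratedBlowup F (lex F k) := by
  induction k with
  | zero =>
    refine ⟨W, F, IsIteratedBlowup.base, ⟨fun _ => w₀, fun x y _ => Subsingleton.elim x y⟩, ?_⟩
    rintro e ⟨hc, j, -⟩
    exact j.elim0
  | succ k ih => exact (sub_partialLex hr F (lex F k) w₀ ih Finset.univ).mono (lex_succ hr F w₀ k)

/-- The set `A` of vertices is *good* for the set `E` of edges: it can be mapped injectively to the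
words over the vertex set of `F` in such a way that every edge inside `A` is an edge of a complete
iterated blowup of `F`. -/
def Good (F : RGraph r W) (E : Set (Finset X)) (A : Finset X) : Prop :=
  ∃ (k : ℕ) (ψ : X → ℕ → W),
    (∀ x ∈ A, ∀ y ∈ A, (∀ i < k, ψ x i = ψ y i) → x = y) ∧
    ∀ e ∈ E, e ⊆ A → ∃ j < k, (∀ x ∈ e, ∀ y ∈ e, ∀ i < j, ψ x i = ψ y i) ∧
      e.image (fun x => ψ x j) ∈ F.edges

lemma Good.mono {F : RGraph r W} {E E' : Set (Finset X)} {A A' : Finset X} (h : Good F E A)
    (hA : A' ⊆ A) (hE : ∀ e ∈ E', e ⊆ A' → e ∈ E) : Good F E' A' := by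
  obtain ⟨k, ψ, h1, h2⟩ := h
  exact ⟨k, ψ, fun x hx y hy => h1 x (hA hx) y (hA hy),
    fun e he heA => h2 e (hE e he heA) (heA.trans hA)⟩

lemma Good.step [Fintype W] {F : RGraph r W} {E : Set (Finset X)} {A : Finset X} (π : X → W)
    (hE : ∀ e ∈ E, e ⊆ A → (∃ w, ∀ x ∈ e, π x = w) ∨ e.image π ∈ F.edges)
    (hπ : ∀ w, Good F E (A.filter (fun x => π x = w))) : Good F E A := by
  choose k ψ h1 h2 using hπ
  let K : ℕ := Finset.univ.sup k
  have hK : ∀ w, k w ≤ K := fun w => Finset.le_sup (Finset.mem_univ w)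
  refine ⟨K + 1, fun x i => Nat.casesOn i (π x) (fun i => ψ (π x) x i), ?_, ?_⟩
  · intro x hx y hy h
    have h0 : π x = π y := h 0 (Nat.succ_pos _)
    apply h1 (π x) x (Finset.mem_filter.mpr ⟨hx, rfl⟩) y (Finset.mem_filter.mpr ⟨hy, h0.symm⟩)
    intro i hi
    have h3 : ψ (π x) x i = ψ (π y) y i := h (i + 1) (by have := hK (π x); omega)
    rw [h3, h0]
  · intro e he heA
    rcases hE e he heA with ⟨w, hw⟩ | h
    · obtain ⟨j, hj, h3, h4⟩ := h2 w e he
        (fun x hx => Finset.mem_filter.mpr ⟨heA hx, hw x hx⟩)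
      refine ⟨j + 1, by have := hK w; omega, ?_, ?_⟩
      · intro x hx y hy i hi
        rcases i with _ | i
        · show π x = π y
          rw [hw x hx, hw y hy]
        · show ψ (π x) x i = ψ (π y) y i
          rw [hw x hx, hw y hy]
          exact h3 x hx y hy i (by omega)
      · convert h4 using 1
        apply Finset.image_congr
        intro x hx
        show ψ (π x) x j = ψ w x j
        rw [hw x hx]
    · refine ⟨0, Nat.succ_pos _, ?_, h⟩
      intro x _ y _ i hi
      omega

/-- A good `r`-graph is a subgraph of an iterated blowup. -/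
lemma Good.sub [Fintype W] [Fintype X] (hr : 2 ≤ r) {F : RGraph r W} (w₀ : W) {G : RGraph r X}
    (h : Good F G.edges Finset.univ) : SubIteratedBlowup F G := by
  obtain ⟨k, ψ, h1, h2⟩ := h
  refine (sub_lex hr F w₀ k).mono ⟨⟨fun x i => ψ x i, ?_⟩, ?_⟩
  · intro x y hxy
    exact h1 x (Finset.mem_univ _) y (Finset.mem_univ _)
      (fun i hi => congrFun hxy ⟨i, hi⟩)
  · intro e he
    obtain ⟨j, hj, h3, h4⟩ := h2 e he (Finset.subset_univ _)
    refine ⟨by simpa using G.uniform e he, ⟨j, hj⟩, ?_, ?_⟩
    · intro x hx y hy i hi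
      simp only [Finset.mem_map] at hx hy
      obtain ⟨x, hx, rfl⟩ := hx
      obtain ⟨y, hy, rfl⟩ := hy
      exact h3 x hx y hy i hi
    · rw [Finset.map_eq_image, Finset.image_image]
      exact h4

/-- If `F` has an edge then every set without edges is good. -/
lemma good_of_no_edges [Fintype W] (hr : 2 ≤ r) {F : RGraph r W} (hF : F.edges.Nonempty)
    {E : Set (Finset X)} (A : Finset X) (hE : ∀ e ∈ E, ¬ e ⊆ A) : Good F E A := by
  obtain ⟨w₀, w₁, hw⟩ : ∃ w₀ w₁ : W, w₀ ≠ w₁ := by
    obtain ⟨f, hf⟩ := hF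
    have := F.uniform f hf
    have h1 : 1 < f.card := by omega
    obtain ⟨a, _, b, _, hab⟩ := Finset.one_lt_card.mp h1
    exact ⟨a, b, hab⟩
  induction A using Finset.induction_on with
  | empty =>
    refine ⟨0, fun _ _ => w₀, ?_, ?_⟩
    · intro x hx
      simp at hx
    · intro e he heA
      exact absurd heA (hE e he)
  | insert a A ha ih =>
    have ih' := ih (fun e he h => hE e he (h.trans (Finset.subset_insert _ _)))
    apply Good.step (fun x => if x = a then w₀ else w₁)
    · intro e he heA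
      exact absurd heA (hE e he)
    · intro w
      by_cases h : w = w₀
      · subst h
        refine ⟨0, fun _ _ => w, ?_, ?_⟩
        · intro x hx y hy _
          simp only [Finset.mem_filter] at hx hy
          have h1 : x = a := by
            by_contra h
            have := hx.2
            rw [if_neg h] at this
            exact hw this.symm
          have h2 : y = a := by
            by_contra h
            have := hy.2
            rw [if_neg h] at this
            exact hw this.symm
          rw [h1, h2]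
        · intro e he heA
          exact absurd (heA.trans (Finset.filter_subset _ _)) (hE e he)
      · apply ih'.mono
        · intro x hx
          simp only [Finset.mem_filter] at hx
          rcases Finset.mem_insert.mp hx.1 with h1 | h1
          · exfalso
            have := hx.2
            rw [if_pos h1] at this
            exact h this.symm
          · exact h1
        · intro e he _
          exact he

/-- Two good sets with no edge between them form a good set. -/
lemma Good.union [Fintype W] (hr : 2 ≤ r) {F : RGraph r W} (hF : F.edges.Nonempty)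
    {E : Set (Finset X)} {A B : Finset X} (hA : Good F E A) (hB : Good F E B)
    (hE : ∀ e ∈ E, e ⊆ A ∪ B → e ⊆ A ∨ (e ⊆ B ∧ Disjoint e A)) : Good F E (A ∪ B) := by
  obtain ⟨w₀, w₁, hw⟩ : ∃ w₀ w₁ : W, w₀ ≠ w₁ := by
    obtain ⟨f, hf⟩ := hF
    have := F.uniform f hf
    have h1 : 1 < f.card := by omega
    obtain ⟨a, _, b, _, hab⟩ := Finset.one_lt_card.mp h1
    exact ⟨a, b, hab⟩
  apply Good.step (fun x => if x ∈ A then w₀ else w₁)
  · intro e he heA
    left
    rcases hE e he heA with h | ⟨_, h⟩
    · exact ⟨w₀, fun x hx => by rw [if_pos (h hx)]⟩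
    · refine ⟨w₁, fun x hx => ?_⟩
      rw [if_neg]
      exact Finset.disjoint_left.mp h hx
  · intro w
    by_cases h : w = w₀
    · subst h
      apply hA.mono
      · intro x hx
        simp only [Finset.mem_filter] at hx
        by_contra h
        have := hx.2
        rw [if_neg h] at this
        exact hw this.symm
      · intro e he _
        exact he
    · apply hB.mono
      · intro x hx
        simp only [Finset.mem_filter, Finset.mem_union] at hx
        rcases hx.1 with h1 | h1
        · exfalso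
          have := hx.2
          rw [if_pos h1] at this
          exact h this.symm
        · exact h1
      · intro e he _
        exact he

end RGraph

end Pool.Agent.Work.MP_f35e27_co
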