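import Mathlib

/-!
# Erdős–Rogers functions of hypergraphs and iterated blowups: definitions
-/

namespace Pool.Agent.Work.MP_f35e27_co

/-- An `r`-graph with vertex set `V`: a set of `r`-element subsets of `V`, the edges. -/
structure RGraph (r : ℕ) (V : Type) where
  /-- The set of edges. -/
  edges : Set (Finset V)
  /-- Every edge has exactly `r` vertices. -/
  uniform : ∀ e ∈ edges, e.card = r

namespace RGraph

variable {r : ℕ} {V W : Type}

/-- `H` contains `G`: some injection of the vertices of `G` in the vertices of `H` maps every edge
of `G` to an edge of `H`, i.e. `H` has a (not necessarily induced) subgraph isomorphic to `G`.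
`H` is `G`-free if it does not contain `G`. -/
def Contains (H : RGraph r W) (G : RGraph r V) : Prop :=
  ∃ φ : V ↪ W, ∀ e ∈ G.edges, e.map φ ∈ H.edges

/-- The subgraph of `H` induced on the set `S` of vertices. -/
def induce (H : RGraph r V) (S : Finset V) : RGraph r S where
  edges := {e | e.map (Function.Embedding.subtype _) ∈ H.edges}
  uniform := fun e he => by
    have := H.uniform _ he
    simpa using this

/-- Every `G`-free `r`-graph on `n` vertices has an `F`-free induced subgraph on `m` vertices. -/
def HasFreeInduced (F : RGraph r W) (G : RGraph r V) (n m : ℕ) : Prop :=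
  ∀ H : RGraph r (Fin n), ¬ H.Contains G → ∃ S : Finset (Fin n), S.card = m ∧
    ¬ (H.induce S).Contains F

/-- The Erdős–Rogers function `f_{F,G}(n)`: the largest `m` such that every `G`-free `r`-graph on
`n` vertices has an `F`-free induced subgraph on `m` vertices.  (By Lean's convention for suprema
it is `0` if there is no largest `m`; for large `n` this only happens if `G` has no edge, when no
`r`-graph on `n` vertices is `G`-free, or if `F` has no vertex.) -/
noncomputable def erdosRogers (F : RGraph r W) (G : RGraph r V) (n : ℕ) : ℕ :=
  sSup {m | HasFreeInduced F G n m}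

/-- `f_{F,G}(n) ≥ n ^ c` for some constant `c > 0` and all sufficiently large `n`. -/
def PolynomialGrowth (F : RGraph r W) (G : RGraph r V) : Prop :=
  ∃ c : ℝ, 0 < c ∧ ∀ᶠ n : ℕ in Filter.atTop, (n : ℝ) ^ c ≤ (erdosRogers F G n : ℝ)

/-- The map from the vertices of `H(v, F)` to the vertices of `H` which sends `v` and its clones
(the elements of `W`) to `v` and fixes the other vertices. -/
def collapse (v : V) : {x : V // x ≠ v} ⊕ W → V := Sum.elim (fun x => x.1) (fun _ => v)

open Classical in
/-- The `r`-graph `H(v, F)`.  The vertex `v` and its clones are indexed by the vertex set `W` of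
`F`.  The edges are the `r`-sets which become an edge of `H` when `v` and its clones are
identified, i.e. the edges of `H` which avoid `v` and the sets `(e \ {v}) ∪ {u}` for an edge
`e ∋ v` of `H` and `u` one of `v` and its clones, together with the edges of the copy of `F` on
`v` and its clones. -/
def blowup (H : RGraph r V) (v : V) (F : RGraph r W) : RGraph r ({x : V // x ≠ v} ⊕ W) where
  edges := {e | (e.card = r ∧ e.image (collapse v) ∈ H.edges) ∨
    ∃ f ∈ F.edges, e = f.map Function.Embedding.inr}
  uniform := by
    rintro e (⟨h, -⟩ | ⟨f, hf, rfl⟩)
    · exact h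
    · simpa using F.uniform f hf

/-- The `F`-iterated blowups: `F` itself, and `H(v, F)` for an `F`-iterated blowup `H` and a vertex
`v` of `H`. -/
inductive IsIteratedBlowup (F : RGraph r W) : ∀ {U : Type}, RGraph r U → Prop
  | base : IsIteratedBlowup F F
  | step {U : Type} (H : RGraph r U) (v : U) :
      IsIteratedBlowup F H → IsIteratedBlowup F (H.blowup v F)

/-- `G` is (up to isomorphism) a subgraph of an `F`-iterated blowup. -/
def SubIteratedBlowup (F : RGraph r W) (G : RGraph r V) : Prop :=
  ∃ (U : Type) (H : RGraph r U), IsIteratedBlowup F H ∧ H.Contains G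

end RGraph

end Pool.Agent.Work.MP_f35e27_co
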