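import Pool.Agent.Work.MP_f35e27_co.Closure

/-!
# Flexible sets
-/

open Classical

namespace Pool.Agent.Work.MP_f35e27_co

namespace RGraph

variable {r : ℕ} {V W X : Type}

/-- The set `A` of vertices is *flexible*: some map to the vertices of `F` which is not constant on
`A` is constant on every edge inside `A` which it does not map onto an edge of `F`. -/
def Flexible (F : RGraph r W) (H : RGraph r V) (A : Finset V) : Prop :=
  ∃ f : V → W, (∃ x ∈ A, ∃ y ∈ A, f x ≠ f y) ∧
    ∀ e ∈ H.edges, e ⊆ A → (∃ w, ∀ x ∈ e, f x = w) ∨ e.image f ∈ F.edges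

/-- All sets with at least `2` and at most `k` elements are flexible. -/
def LocallyFlexible (F : RGraph r W) (H : RGraph r V) (k : ℕ) : Prop :=
  ∀ A : Finset V, 2 ≤ A.card → A.card ≤ k → Flexible F H A

lemma nontrivial_of_edges (hr : 2 ≤ r) {F : RGraph r W} (hF : F.edges.Nonempty) :
    ∃ w₀ w₁ : W, w₀ ≠ w₁ := by
  obtain ⟨f, hf⟩ := hF
  have := F.uniform f hf
  have h1 : 1 < f.card := by omega
  obtain ⟨a, _, b, _, hab⟩ := Finset.one_lt_card.mp h1
  exact ⟨a, b, hab⟩

/-- If all sets are flexible then all sets are good. -/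
lemma good_of_flexible [Fintype W] (hr : 2 ≤ r) {F : RGraph r W} (hF : F.edges.Nonempty)
    {H : RGraph r V} {k : ℕ} (hH : LocallyFlexible F H k) :
    ∀ (n : ℕ) (A : Finset V), A.card = n → A.card ≤ k → Good F H.edges A := by
  intro n
  induction n using Nat.strong_induction_on with
  | _ n ih =>
  intro A hAn hAk
  by_cases h2 : 2 ≤ A.card
  · obtain ⟨f, ⟨x, hx, y, hy, hxy⟩, hf⟩ := hH A h2 hAk
    apply Good.step f hf
    intro w
    have hlt : (A.filter (fun x => f x = w)).card < A.card := by
      apply Finset.card_lt_card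
      rw [Finset.filter_ssubset]
      by_cases h : f x = w
      · exact ⟨y, hy, fun h' => hxy (h.trans h'.symm)⟩
      · exact ⟨x, hx, h⟩
    exact ih _ (by omega) _ rfl (by omega)
  · apply good_of_no_edges hr hF
    intro e he heA
    have h3 := H.uniform e he
    have h4 := Finset.card_le_card heA
    omega

/-- Flexibility passes to subgraphs. -/
lemma LocallyFlexible.of_contains {F : RGraph r W} {H : RGraph r V} {G : RGraph r X} {k : ℕ}
    (hH : LocallyFlexible F H k) (h : H.Contains G) : LocallyFlexible F G k := by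
  obtain ⟨φ, hφ⟩ := h
  intro A h2 hk
  obtain ⟨f, ⟨x, hx, y, hy, hxy⟩, hf⟩ := hH (A.map φ) (by simpa using h2) (by simpa using hk)
  obtain ⟨x', hx', rfl⟩ := Finset.mem_map.mp hx
  obtain ⟨y', hy', rfl⟩ := Finset.mem_map.mp hy
  refine ⟨f ∘ φ, ⟨x', hx', y', hy', hxy⟩, ?_⟩
  intro e he heA
  rcases hf (e.map φ) (hφ e he) (Finset.map_subset_map.mpr heA) with ⟨w, hw⟩ | h
  · left
    exact ⟨w, fun x hx => hw (φ x) (Finset.mem_map_of_mem φ hx)⟩
  · right
    rw [Finset.map_eq_image, Finset.image_image] at h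
    exact h

end RGraph

end Pool.Agent.Work.MP_f35e27_co
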