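import Pool.Agent.Work.MP_f35e27_co.Induct

/-!
# The Erdős–Rogers function is subpolynomial if `G` is not a subgraph of an iterated blowup
-/

open Classical Filter

namespace Pool.Agent.Work.MP_f35e27_co

open RGraph

variable {r : ℕ} {V W : Type}

/-- If the function is positive it is attained, unless every `r`-graph on `n` vertices contains
`G`. -/
lemma hasFreeInduced_erdosRogers {F : RGraph r W} {G : RGraph r V} {n : ℕ}
    (hpos : 0 < erdosRogers F G n) {H : RGraph r (Fin n)} (hH : ¬ H.Contains G) :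
    HasFreeInduced F G n (erdosRogers F G n) := by
  have hne : {m | HasFreeInduced F G n m}.Nonempty := by
    by_contra hcon
    rw [Set.not_nonempty_iff_eq_empty] at hcon
    unfold erdosRogers at hpos
    rw [hcon] at hpos
    simp at hpos
  have hbdd : BddAbove {m | HasFreeInduced F G n m} := by
    refine ⟨n, ?_⟩
    intro m hm
    obtain ⟨S, hS, -⟩ := hm H hH
    rw [← hS]
    simpa using Finset.card_le_univ S
  exact Nat.sSup_mem hne hbdd

/-- If `F` has no edge and `G` has an edge then the Erdős–Rogers function is bounded. -/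
lemma erdosRogers_le_of_no_edges [Fintype W] {F : RGraph r W} {G : RGraph r V}
    (hF : F.edges = ∅) (hG : G.edges.Nonempty) (n : ℕ) :
    erdosRogers F G n ≤ Fintype.card W := by
  apply csSup_le'
  intro m hm
  obtain ⟨S, hS, hfree⟩ := hm ⟨∅, fun e he => absurd he (Set.notMem_empty e)⟩ (by
    rintro ⟨φ, hφ⟩
    obtain ⟨e, he⟩ := hG
    exact absurd (hφ e he) (Set.notMem_empty _))
  by_contra hlt
  push Not at hlt
  apply hfree
  obtain ⟨φ⟩ : Nonempty (W ↪ S) := by
    apply Function.Embedding.nonempty_of_card_le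
    rw [Fintype.card_coe, hS]
    exact hlt.le
  refine ⟨φ, fun e he => ?_⟩
  rw [hF] at he
  exact absurd he (Set.notMem_empty e)

/-- If `G` has no edge then for large `n` there is no `G`-free `r`-graph on `n` vertices, and the
value of the Erdős–Rogers function is `0` by convention. -/
lemma erdosRogers_eq_zero [Fintype V] {F : RGraph r W} {G : RGraph r V}
    (hG : G.edges = ∅) {n : ℕ} (hn : Fintype.card V ≤ n) : erdosRogers F G n = 0 := by
  have h : {m | HasFreeInduced F G n m} = Set.univ := by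
    rw [Set.eq_univ_iff_forall]
    intro m H hH
    exfalso
    apply hH
    obtain ⟨φ⟩ : Nonempty (V ↪ Fin n) := by
      apply Function.Embedding.nonempty_of_card_le
      rwa [Fintype.card_fin]
    refine ⟨φ, fun e he => ?_⟩
    rw [hG] at he
    exact absurd he (Set.notMem_empty e)
  unfold erdosRogers
  rw [h]
  apply Nat.sSup_of_not_bddAbove
  exact not_bddAbove_univ

/-- The main bound. -/
theorem erdosRogers_pow_le [Fintype V] [Fintype W] (hr : 2 ≤ r) (F : RGraph r W)
    (G : RGraph r V) (hFG : ¬ SubIteratedBlowup F G) (N : ℕ) (hN : 0 < N) :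
    ∃ n₀ : ℕ, ∀ n ≥ n₀, erdosRogers F G n ^ N ≤ n := by
  by_cases hF : F.edges.Nonempty
  · obtain ⟨n₀, hn₀⟩ := hasBase hr hF (Fintype.card V) N
    refine ⟨n₀, fun n hn => ?_⟩
    obtain ⟨Q, hQ, a, ha, haN⟩ := hn₀ n hn
    obtain ⟨w₀, -⟩ := nontrivial_of_edges hr hF
    have hfree : ¬ Q.Contains G := by
      intro hcon
      apply hFG
      apply Good.sub hr w₀
      exact good_of_flexible hr hF (hQ.of_contains hcon) _ Finset.univ rfl
        (by rw [Finset.card_univ]; omega)
    rcases Nat.eq_zero_or_pos (erdosRogers F G n) with h0 | hpos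
    · rw [h0, zero_pow hN.ne']
      exact Nat.zero_le _
    · obtain ⟨S, hS, hSF⟩ := hasFreeInduced_erdosRogers hpos hfree Q hfree
      have h1 : S.card < a := by
        apply ha
        rintro ⟨φ, h1, h2⟩
        apply hSF
        refine ⟨⟨fun w => ⟨φ w, h1 w⟩, ?_⟩, ?_⟩
        · intro w w' hw
          exact φ.injective (congrArg Subtype.val hw)
        · intro f hf
          show (f.map _).map _ ∈ Q.edges
          rw [Finset.map_map]
          exact h2 f hf
      rw [← hS]
      exact (Nat.pow_le_pow_left h1.le N).trans haN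
  · rw [Set.not_nonempty_iff_eq_empty] at hF
    by_cases hG : G.edges.Nonempty
    · refine ⟨Fintype.card W ^ N, fun n hn => ?_⟩
      exact (Nat.pow_le_pow_left (erdosRogers_le_of_no_edges hF hG n) N).trans hn
    · rw [Set.not_nonempty_iff_eq_empty] at hG
      refine ⟨Fintype.card V, fun n hn => ?_⟩
      rw [erdosRogers_eq_zero hG hn, zero_pow hN.ne']
      exact Nat.zero_le _

theorem eventually_le_rpow [Fintype V] [Fintype W] (hr : 2 ≤ r) (F : RGraph r W)
    (G : RGraph r V) (hFG : ¬ SubIteratedBlowup F G) (ε : ℝ) (hε : 0 < ε) :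
    ∀ᶠ n : ℕ in atTop, (erdosRogers F G n : ℝ) ≤ (n : ℝ) ^ ε := by
  obtain ⟨k, hk⟩ := exists_nat_one_div_lt hε
  obtain ⟨n₀, hn₀⟩ := erdosRogers_pow_le hr F G hFG (k + 1) (Nat.succ_pos k)
  filter_upwards [eventually_ge_atTop n₀, eventually_ge_atTop 1] with n hn hn1
  by_contra hlt
  push Not at hlt
  have h1 : (1 : ℝ) ≤ (n : ℝ) := by exact_mod_cast hn1
  have h2 : ((erdosRogers F G n : ℝ)) ^ (k + 1) ≤ (n : ℝ) := by exact_mod_cast hn₀ n hn
  have h3 : ((n : ℝ) ^ ε) ^ (k + 1) < ((erdosRogers F G n : ℝ)) ^ (k + 1) :=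
    pow_lt_pow_left₀ hlt (by positivity) (Nat.succ_ne_zero k)
  have h4 : (n : ℝ) ≤ ((n : ℝ) ^ ε) ^ (k + 1) := by
    rw [← Real.rpow_natCast, ← Real.rpow_mul (by positivity)]
    nth_rewrite 1 [← Real.rpow_one (n : ℝ)]
    apply Real.rpow_le_rpow_of_exponent_le h1
    have h5 : (0 : ℝ) < (k : ℝ) + 1 := by positivity
    rw [div_lt_iff₀ h5] at hk
    push_cast
    exact hk.le
  linarith

theorem sub_of_growth [Fintype V] [Fintype W] (hr : 2 ≤ r) (F : RGraph r W)
    (G : RGraph r V) (h : PolynomialGrowth F G) : SubIteratedBlowup F G := by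
  by_contra hFG
  obtain ⟨c, hc, hev⟩ := h
  have h1 := eventually_le_rpow hr F G hFG (c / 2) (by positivity)
  obtain ⟨n, hn1, hn2, hn3⟩ := (hev.and (h1.and (eventually_ge_atTop 2))).exists
  have h2 : (1 : ℝ) < (n : ℝ) := by exact_mod_cast hn3
  have h3 : (n : ℝ) ^ (c / 2) < (n : ℝ) ^ c :=
    Real.rpow_lt_rpow_of_exponent_lt h2 (by linarith)
  linarith

/-- An `r`-graph without edges is a subgraph of an iterated blowup if `F` has two vertices. -/
theorem sub_of_no_edges [Fintype V] [Fintype W] (hr : 2 ≤ r) (F : RGraph r W)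
    (G : RGraph r V) (hG : G.edges = ∅) (hW : 2 ≤ Fintype.card W) : SubIteratedBlowup F G := by
  obtain ⟨w₀⟩ : Nonempty W := Fintype.card_pos_iff.mp (by omega)
  obtain ⟨k, hk⟩ : ∃ k : ℕ, Fintype.card V ≤ Fintype.card W ^ k :=
    ⟨Fintype.card V, (Nat.lt_pow_self (by omega)).le⟩
  obtain ⟨φ⟩ : Nonempty (V ↪ (Fin k → W)) := by
    apply Function.Embedding.nonempty_of_card_le
    rwa [Fintype.card_fun, Fintype.card_fin]
  refine (sub_lex hr F w₀ k).mono ⟨φ, fun e he => ?_⟩
  rw [hG] at he
  exact absurd he (Set.notMem_empty e)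

end Pool.Agent.Work.MP_f35e27_co
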