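import Pool.Agent.Work.MP_f35e27_co.Moment

/-!
# Lines in a space over a finite field whose directions are on the moment curve
-/

open Classical

namespace Pool.Agent.Work.MP_f35e27_co

section Hyper

variable {𝔽 : Type} [Field 𝔽] {e : ℕ}

/-- The point of `l` at the parameter `x`. -/
def ptm (x : 𝔽) (l : Fin (e + 1) → 𝔽) : Fin e → 𝔽 := fun j => x * l j.castSucc - l j.succ

lemma ptm_add (x : 𝔽) (l : Fin (e + 1) → 𝔽) (t : 𝔽) :
    ptm x (l + t • mom (e + 1) x) = ptm x l := by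
  funext j
  simp only [ptm, mom, Pi.add_apply, Pi.smul_apply, smul_eq_mul, Fin.val_castSucc, Fin.val_succ]
  ring

lemma sub_of_ptm {x : 𝔽} {l l' : Fin (e + 1) → 𝔽} (h : ptm x l = ptm x l') (j : Fin (e + 1)) :
    l j - l' j = (l 0 - l' 0) * x ^ (j : ℕ) := by
  induction j using Fin.induction with
  | zero => simp
  | succ j ih =>
    have h1 := congrFun h j
    simp only [ptm] at h1
    rw [Fin.val_succ, pow_succ, ← mul_assoc]
    rw [Fin.val_castSucc] at ih
    rw [← ih]
    linear_combination -h1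

lemma eq_of_ptm {x : 𝔽} {l l' : Fin (e + 1) → 𝔽} (h : ptm x l = ptm x l') (h0 : l 0 = l' 0) :
    l = l' := by
  funext j
  have := sub_of_ptm h j
  rw [h0, sub_self, zero_mul, sub_eq_zero] at this
  exact this

variable [Fintype 𝔽]

lemma ptm_bijective (x : 𝔽) :
    Function.Bijective (fun l : Fin (e + 1) → 𝔽 => (l 0, ptm x l)) := by
  rw [Fintype.bijective_iff_injective_and_card]
  constructor
  · intro l l' h
    exact eq_of_ptm (congrArg Prod.snd h) (congrArg Prod.fst h)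
  · rw [Fintype.card_prod, Fintype.card_fun, Fintype.card_fun, Fintype.card_fin,
      Fintype.card_fin, pow_succ, mul_comm]

lemma card_ptm (A : Finset (Fin e → 𝔽)) (x : 𝔽) :
    (Finset.univ.filter fun l : Fin (e + 1) → 𝔽 => ptm x l ∈ A).card =
      Fintype.card 𝔽 * A.card := by
  rw [← Finset.card_univ (α := 𝔽), ← Finset.card_product]
  apply Finset.card_bij (fun l _ => (l 0, ptm x l))
  · intro l hl
    exact Finset.mem_product.mpr ⟨Finset.mem_univ _, (Finset.mem_filter.mp hl).2⟩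
  · intro l _ l' _ h
    exact (ptm_bijective x).1 h
  · rintro ⟨a, P⟩ hP
    obtain ⟨l, hl⟩ := (ptm_bijective x).2 (a, P)
    refine ⟨l, Finset.mem_filter.mpr ⟨Finset.mem_univ _, ?_⟩, hl⟩
    rw [show ptm x l = P from congrArg Prod.snd hl]
    exact (Finset.mem_product.mp hP).2

/-- Few elements miss large sets of points. -/
theorem card_miss {u : ℕ} (x : Fin u → 𝔽) (hx : Function.Injective x)
    (A : Fin u → Finset (Fin e → 𝔽)) :
    ((Finset.univ.filter fun l : Fin (e + 1) → 𝔽 => ∀ v, ptm (x v) l ∉ A v).card : ℝ) *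
      (∑ v, ((A v).card : ℝ)) ≤ (e : ℝ) * (Fintype.card 𝔽 : ℝ) ^ (2 * e + 1) := by
  set Q : ℝ := (Fintype.card 𝔽 : ℝ) with hQ
  have hQ0 : 0 < Q := card_pos'
  set s : ℝ := ∑ v, ((A v).card : ℝ) with hs
  have hs0 : 0 ≤ s := Finset.sum_nonneg (fun _ _ => Nat.cast_nonneg _)
  rcases hs0.eq_or_lt with h0 | hspos
  · rw [← h0, mul_zero]
    positivity
  let f : Fin u → (Fin (e + 1) → 𝔽) → ℝ := fun v l =>
    (if ptm (x v) l ∈ A v then (1 : ℝ) else 0) - ((A v).card : ℝ) / Q ^ e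
  have hone : ∀ v, ∑ l, (if ptm (x v) l ∈ A v then (1 : ℝ) else 0) = Q * ((A v).card : ℝ) := by
    intro v
    rw [Finset.sum_boole, card_ptm]
    push_cast
    rfl
  have hcard : ((Finset.univ : Finset (Fin (e + 1) → 𝔽)).card : ℝ) = Q ^ e * Q := by
    rw [Finset.card_univ, Fintype.card_fun, Fintype.card_fin]
    push_cast
    rw [pow_succ]
  have hQe : (0 : ℝ) < Q ^ e := pow_pos hQ0 e
  have hmean : ∀ v, ∑ l, f v l = 0 := by
    intro v
    show ∑ l, ((if ptm (x v) l ∈ A v then (1 : ℝ) else 0) - ((A v).card : ℝ) / Q ^ e) = 0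
    rw [Finset.sum_sub_distrib, hone, Finset.sum_const, nsmul_eq_mul, hcard]
    field_simp
    ring
  have hsq : ∀ v, ∑ l, f v l ^ 2 ≤ Q * ((A v).card : ℝ) := by
    intro v
    have h1 : ∀ l, f v l ^ 2 = (1 - 2 * (((A v).card : ℝ) / Q ^ e)) *
        (if ptm (x v) l ∈ A v then (1 : ℝ) else 0) + (((A v).card : ℝ) / Q ^ e) ^ 2 := by
      intro l
      show ((if ptm (x v) l ∈ A v then (1 : ℝ) else 0) - ((A v).card : ℝ) / Q ^ e) ^ 2 = _
      split_ifs
      · ring
      · ring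
    rw [Finset.sum_congr rfl (fun l _ => h1 l), Finset.sum_add_distrib, ← Finset.mul_sum, hone,
      Finset.sum_const, nsmul_eq_mul, hcard]
    have h2 : (1 - 2 * (((A v).card : ℝ) / Q ^ e)) * (Q * ((A v).card : ℝ)) +
        Q ^ e * Q * (((A v).card : ℝ) / Q ^ e) ^ 2 =
        Q * ((A v).card : ℝ) - Q * ((A v).card : ℝ) ^ 2 / Q ^ e := by
      field_simp
      ring
    rw [h2]
    have h3 : 0 ≤ Q * ((A v).card : ℝ) ^ 2 / Q ^ e := by positivity
    linarith
  have hinv : ∀ v, mom (e + 1) (x v) ∈ invSub (f v) := by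
    intro v t l
    show (if ptm (x v) (l + t • mom (e + 1) (x v)) ∈ A v then (1 : ℝ) else 0) - _ = _
    rw [ptm_add]
  have hmain := second_moment x hx e ∅ Finset.univ f (by simp; omega)
    (fun i _ => Finset.notMem_empty _) (fun i _ => hmean i) (fun i _ => hinv i)
    (fun i _ y hy => absurd hy (Finset.notMem_empty y))
  have hmain2 : ∑ l, (∑ v, f v l) ^ 2 ≤ (e : ℝ) * (Q * s) := by
    refine hmain.trans ?_
    apply mul_le_mul_of_nonneg_left _ (Nat.cast_nonneg _)
    rw [hs, Finset.mul_sum]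
    exact Finset.sum_le_sum (fun v _ => hsq v)
  set B := Finset.univ.filter fun l : Fin (e + 1) → 𝔽 => ∀ v, ptm (x v) l ∉ A v with hB
  have hBsum : (B.card : ℝ) * (s / Q ^ e) ^ 2 ≤ (e : ℝ) * (Q * s) := by
    refine le_trans ?_ hmain2
    have h1 : (B.card : ℝ) * (s / Q ^ e) ^ 2 = ∑ l ∈ B, (∑ v, f v l) ^ 2 := by
      have h2 : ∀ l ∈ B, (∑ v, f v l) ^ 2 = (s / Q ^ e) ^ 2 := by
        intro l hl
        have h3 := (Finset.mem_filter.mp hl).2
        have h4 : ∑ v, f v l = -(s / Q ^ e) := by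
          rw [hs, Finset.sum_div, ← Finset.sum_neg_distrib]
          apply Finset.sum_congr rfl
          intro v _
          show (if ptm (x v) l ∈ A v then (1 : ℝ) else 0) - ((A v).card : ℝ) / Q ^ e = _
          rw [if_neg (h3 v)]
          ring
        rw [h4]
        ring
      rw [Finset.sum_congr rfl h2, Finset.sum_const, nsmul_eq_mul]
    rw [h1]
    exact Finset.sum_le_sum_of_subset_of_nonneg (Finset.subset_univ _) (fun _ _ _ => sq_nonneg _)
  have h1 : (B.card : ℝ) * s * (s / Q ^ (2 * e)) ≤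
      (e : ℝ) * Q ^ (2 * e + 1) * (s / Q ^ (2 * e)) := by
    have e1 : (B.card : ℝ) * s * (s / Q ^ (2 * e)) = (B.card : ℝ) * (s / Q ^ e) ^ 2 := by
      rw [div_pow, ← pow_mul, mul_comm e 2]
      ring
    have e2 : (e : ℝ) * Q ^ (2 * e + 1) * (s / Q ^ (2 * e)) = (e : ℝ) * (Q * s) := by
      rw [pow_succ]
      field_simp
    rw [e1, e2]
    exact hBsum
  exact le_of_mul_le_mul_right h1 (div_pos hspos (pow_pos hQ0 _))

end Hyper

end Pool.Agent.Work.MP_f35e27_co
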