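import Mathlib

/-!
# Random labels: no set has few labels at many levels
-/

open Classical

namespace Pool.Agent.Work.MP_f35e27_co

/-- Few maps send `T'` to few labels. -/
lemma card_bad {X L : Type} [Fintype X] [Fintype L] (q' : ℕ) (T' : Finset X)
    (hT : T'.card = Fintype.card L) :
    (Finset.univ.filter fun h : X → L => 2 * q' * (T'.image h).card < Fintype.card L).card *
      q' ^ Fintype.card L ≤ Fintype.card L ^ Fintype.card X := by
  set S := Fintype.card L with hS
  set N := Fintype.card X with hN
  have hle : S ≤ N := by rw [← hT]; exact Finset.card_le_univ T'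
  let 𝒜 : Finset (Finset L) := Finset.univ.filter fun A => 2 * q' * A.card < S
  let C : Finset L → Finset (X → L) := fun A =>
    Fintype.piFinset fun x => if x ∈ T' then A else Finset.univ
  have hC : ∀ A, (C A).card = A.card ^ S * S ^ (N - S) := by
    intro A
    rw [Fintype.card_piFinset]
    have h1 : ∀ x, (if x ∈ T' then A else (Finset.univ : Finset L)).card =
        if x ∈ T' then A.card else S := by
      intro x
      split_ifs
      · rfl
      · rw [Finset.card_univ]
    simp_rw [h1]
    rw [Finset.prod_ite, Finset.prod_const, Finset.prod_const]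
    congr 2
    · rw [Finset.filter_mem_eq_inter, Finset.univ_inter, hT]
    · rw [Finset.filter_not, Finset.filter_mem_eq_inter, Finset.univ_inter,
        Finset.card_sdiff_of_subset (Finset.subset_univ _), Finset.card_univ, hT]
  have hsub : (Finset.univ.filter fun h : X → L => 2 * q' * (T'.image h).card < S) ⊆
      𝒜.biUnion C := by
    intro h hh
    rw [Finset.mem_filter] at hh
    rw [Finset.mem_biUnion]
    refine ⟨T'.image h, Finset.mem_filter.mpr ⟨Finset.mem_univ _, hh.2⟩, ?_⟩
    rw [Fintype.mem_piFinset]
    intro x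
    split_ifs with hx
    · exact Finset.mem_image_of_mem _ hx
    · exact Finset.mem_univ _
  have h2 : (2 * q') ^ S * (Finset.univ.filter fun h : X → L =>
      2 * q' * (T'.image h).card < S).card ≤ 2 ^ S * S ^ N := by
    calc (2 * q') ^ S * (Finset.univ.filter fun h : X → L =>
          2 * q' * (T'.image h).card < S).card
        ≤ (2 * q') ^ S * ∑ A ∈ 𝒜, (C A).card :=
          Nat.mul_le_mul_left _ ((Finset.card_le_card hsub).trans Finset.card_biUnion_le)
      _ = ∑ A ∈ 𝒜, (2 * q' * A.card) ^ S * S ^ (N - S) := by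
          rw [Finset.mul_sum]
          apply Finset.sum_congr rfl
          intro A _
          rw [hC A, mul_pow (2 * q')]
          ring
      _ ≤ ∑ A ∈ 𝒜, S ^ N := by
          apply Finset.sum_le_sum
          intro A hA
          have hA' := (Finset.mem_filter.mp hA).2
          calc (2 * q' * A.card) ^ S * S ^ (N - S) ≤ S ^ S * S ^ (N - S) :=
                Nat.mul_le_mul_right _ (Nat.pow_le_pow_left hA'.le _)
            _ = S ^ N := by rw [← pow_add, Nat.add_sub_cancel' hle]
      _ ≤ 2 ^ S * S ^ N := by
          rw [Finset.sum_const, smul_eq_mul]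
          apply Nat.mul_le_mul_right
          refine (Finset.card_le_univ _).trans ?_
          rw [Fintype.card_finset]
  rw [mul_pow, mul_assoc] at h2
  have h3 := Nat.le_of_mul_le_mul_left h2 (by positivity)
  rw [mul_comm]
  exact h3

/-- There are labels such that no set of the size of the number of labels has few labels at many
levels. -/
lemma exists_labels {X L : Type} [Fintype X] [Fintype L] [Nonempty L] (D q' : ℕ) :
    ∃ ρ : Fin D → X → L, ∀ T' : Finset X, T'.card = Fintype.card L →
      (q' ^ Fintype.card L) ^ (Finset.univ.filter fun j : Fin D =>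
        2 * q' * (T'.image (ρ j)).card < Fintype.card L).card ≤
        Fintype.card X ^ Fintype.card L * 2 ^ D := by
  set S := Fintype.card L with hS
  set N := Fintype.card X with hN
  let bad : Finset X → (X → L) → Prop := fun T' h => 2 * q' * (T'.image h).card < S
  let 𝒯 : Finset (Finset X) := Finset.powersetCard S Finset.univ
  have hprod : ∀ (ρ : Fin D → X → L) (T' : Finset X),
      ∏ j, (if bad T' (ρ j) then q' ^ S else 1) =
        (q' ^ S) ^ (Finset.univ.filter fun j : Fin D => bad T' (ρ j)).card := by
    intro ρ T'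
    rw [Finset.prod_ite, Finset.prod_const, Finset.prod_const_one, mul_one]
  have hcount : ∀ T' ∈ 𝒯, ∑ h : X → L, (if bad T' h then q' ^ S else 1) ≤ 2 * S ^ N := by
    intro T' hT'
    have hT'c : T'.card = S := (Finset.mem_powersetCard.mp hT').2
    rw [Finset.sum_ite, Finset.sum_const, Finset.sum_const, smul_eq_mul, smul_eq_mul, mul_one]
    have h1 : (Finset.univ.filter fun h : X → L => bad T' h).card * q' ^ S ≤ S ^ N :=
      card_bad q' T' hT'c
    have h2 : (Finset.univ.filter fun h : X → L => ¬ bad T' h).card ≤ S ^ N := by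
      refine (Finset.card_le_univ _).trans ?_
      rw [Fintype.card_fun]
    omega
  have htotal : ∑ ρ : Fin D → X → L, ∑ T' ∈ 𝒯, ∏ j, (if bad T' (ρ j) then q' ^ S else 1) ≤
      ∑ _ρ : Fin D → X → L, N ^ S * 2 ^ D := by
    rw [Finset.sum_comm]
    have h1 : ∀ T' ∈ 𝒯, ∑ ρ : Fin D → X → L, ∏ j, (if bad T' (ρ j) then q' ^ S else 1) ≤
        (2 * S ^ N) ^ D := by
      intro T' hT'
      have h2 := Finset.prod_univ_sum (fun _ : Fin D => (Finset.univ : Finset (X → L)))
        (fun _ h => if bad T' h then q' ^ S else 1)
      rw [Fintype.piFinset_univ] at h2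
      rw [← h2]
      refine (Finset.prod_le_prod' (fun j _ => hcount T' hT')).trans ?_
      rw [Finset.prod_const, Finset.card_univ, Fintype.card_fin]
    refine (Finset.sum_le_card_nsmul _ _ _ h1).trans ?_
    rw [Finset.sum_const, smul_eq_mul, smul_eq_mul, Finset.card_univ, Fintype.card_fun,
      Fintype.card_fun, Fintype.card_fin, Finset.card_powersetCard, Finset.card_univ, mul_pow]
    calc N.choose S * (2 ^ D * (S ^ N) ^ D) ≤ N ^ S * (2 ^ D * (S ^ N) ^ D) :=
          Nat.mul_le_mul_right _ (Nat.choose_le_pow N S)
      _ = (S ^ N) ^ D * (N ^ S * 2 ^ D) := by ring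
  obtain ⟨ρ, _, hρ⟩ := Finset.exists_le_of_sum_le (Finset.univ_nonempty) htotal
  refine ⟨ρ, fun T' hT' => ?_⟩
  have h1 := hprod ρ T'
  change (q' ^ S) ^ (Finset.univ.filter fun j : Fin D => bad T' (ρ j)).card ≤ _
  rw [← h1]
  refine le_trans ?_ hρ
  exact Finset.single_le_sum (f := fun T' => ∏ j, (if bad T' (ρ j) then q' ^ S else 1))
    (fun _ _ => Nat.zero_le _)
    (Finset.mem_powersetCard.mpr ⟨Finset.subset_univ _, hT'⟩)

end Pool.Agent.Work.MP_f35e27_co
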