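import Pool.Agent.Work.MP_f35e27_co.TreeQ
import Pool.Agent.Work.MP_f35e27_co.Labels

/-!
# The induction on the size of the flexible sets
-/

open Classical Filter

namespace Pool.Agent.Work.MP_f35e27_co

open RGraph

variable {r : ℕ} {V W : Type}

/-- The `r`-graph on `Y` induced by the injection `φ`. -/
def RGraph.comap {X Y : Type} (H : RGraph r X) (φ : Y ↪ X) : RGraph r Y where
  edges := {e | e.map φ ∈ H.edges}
  uniform := fun e he => by simpa using H.uniform _ he

lemma RGraph.contains_comap {X Y : Type} (H : RGraph r X) (φ : Y ↪ X) :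
    H.Contains (H.comap φ) := ⟨φ, fun _ he => he⟩

lemma FreeOn.map {X Y : Type} {F : RGraph r W} {H : RGraph r X} {φ : Y ↪ X} {R : Finset Y}
    (h : FreeOn F (H.comap φ) R) : FreeOn F H (R.map φ) := by
  rintro ⟨ψ, h1, h2⟩
  apply h
  have h3 : ∀ w, ∃ y ∈ R, φ y = ψ w := fun w => Finset.mem_map.mp (h1 w)
  choose g hg hgψ using h3
  have hinj : Function.Injective g := by
    intro w w' hw
    apply ψ.injective
    rw [← hgψ w, ← hgψ w', hw]
  refine ⟨⟨g, hinj⟩, hg, ?_⟩
  intro f hf
  show (f.map ⟨g, hinj⟩).map φ ∈ H.edges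
  rw [Finset.map_map]
  have h4 : (⟨g, hinj⟩ : W ↪ Y).trans φ = ψ := by
    apply Function.Embedding.ext
    intro w
    exact hgψ w
  rw [h4]
  exact h2 f hf

lemma RGraph.LocallyFlexible.mono {F : RGraph r W} {H : RGraph r V} {k k' : ℕ}
    (h : LocallyFlexible F H k) (hk : k' ≤ k) : LocallyFlexible F H k' :=
  fun A h2 hA => h A h2 (hA.trans hk)

/-- For all large `n` there are `r`-graphs on `n` vertices in which all sets of at most `k`
vertices are flexible and which have no large subsets without a copy of `F`. -/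
def HasBase (F : RGraph r W) (k : ℕ) : Prop :=
  ∀ N : ℕ, ∃ n₀ : ℕ, ∀ n ≥ n₀, ∃ Q : RGraph r (Fin n), LocallyFlexible F Q k ∧
    ∃ a : ℕ, (∀ R : Finset (Fin n), FreeOn F Q R → R.card < a) ∧ a ^ N ≤ n

lemma hasBase_one [Fintype W] (F : RGraph r W) : HasBase F 1 := by
  intro N
  refine ⟨Fintype.card W ^ N, fun n hn => ⟨⟨{e | e.card = r}, fun _ he => he⟩, ?_, ?_⟩⟩
  · intro A h2 h1
    omega
  · refine ⟨Fintype.card W, ?_, hn⟩
    intro R hR
    by_contra hlt
    push Not at hlt
    apply hR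
    obtain ⟨φ⟩ : Nonempty (W ↪ R) := by
      apply Function.Embedding.nonempty_of_card_le
      rwa [Fintype.card_coe]
    refine ⟨φ.trans (Function.Embedding.subtype _), fun w => (φ w).2, ?_⟩
    intro f hf
    show (f.map _).card = r
    rw [Finset.card_map]
    exact F.uniform f hf

lemma hasBase_succ [Fintype W] (hr : 2 ≤ r) {F : RGraph r W} (hF : F.edges.Nonempty) {k : ℕ}
    (h : HasBase F k) : HasBase F (k + 1) := by
  intro N₁
  set N := N₁ + 1 with hN
  obtain ⟨n₀, hn₀⟩ := h (4 * N)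
  set b := max n₀ 2 with hb
  have hb2 : 2 ≤ b := le_max_right _ _
  obtain ⟨Q, hQ, a, ha, haN⟩ := hn₀ b (le_max_left _ _)
  obtain ⟨w₀, -⟩ := nontrivial_of_edges hr hF
  have hWne : Nonempty W := ⟨w₀⟩
  have ha0 : 0 < a := by
    have := ha ∅ (by
      rintro ⟨g, hg, -⟩
      exact absurd (hg w₀) (Finset.notMem_empty _))
    omega
  set q' := (2 * b) ^ (4 * N) + 1 with hq'
  obtain ⟨Λ, instL, hLne, hproj, hsep, hhits⟩ := exists_curveData F Q (2 * q') k
  set S := Fintype.card Λ.L with hS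
  have hS0 : 0 < S := Fintype.card_pos
  obtain ⟨j₀, hj₀⟩ : ∃ j₀ : ℕ, ∀ j ≥ j₀, S < b ^ j := by
    have := (tendsto_pow_atTop_atTop_of_one_lt (by omega : 1 < b)).eventually
      (eventually_gt_atTop S)
    exact eventually_atTop.mp this
  set B := b ^ (4 * N) with hB
  have hB1 : 1 < B := Nat.one_lt_pow (by omega) (by omega)
  refine ⟨B ^ (max j₀ 4), ?_⟩
  intro n hn
  have hn0 : n ≠ 0 := by
    have : 0 < B ^ (max j₀ 4) := by positivity
    omega
  set j := Nat.log B n + 1 with hj
  have hlog : max j₀ 4 ≤ Nat.log B n := Nat.le_log_of_pow_le hB1 hn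
  have hj4 : 4 ≤ j := by have := le_max_right j₀ 4; omega
  have hjS : S < b ^ j := hj₀ j (by have := le_max_left j₀ 4; omega)
  have hnlow : B ^ (j - 1) ≤ n := by
    rw [hj, Nat.add_sub_cancel]
    exact Nat.pow_log_le_self B hn0
  have hnup : n < B ^ j := Nat.lt_pow_succ_log_self hB1 n
  set D := 4 * N * j with hD
  have hcardX : Fintype.card (Fin D → Fin b) = b ^ D := by
    rw [Fintype.card_fun, Fintype.card_fin, Fintype.card_fin]
  have hBD : B ^ j = b ^ D := by rw [hB, ← pow_mul, hD]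
  -- labels
  obtain ⟨ρ, hρ⟩ := exists_labels (X := Fin D → Fin b) (L := Λ.L) D q'
  have hpoor : ∀ T' : Finset (Fin D → Fin b), T'.card = S →
      (poorLevels (2 * q') ρ 0 T').card ≤ j - 1 := by
    intro T' hT'
    have h1 := hρ T' hT'
    have h2 : (poorLevels (2 * q') ρ 0 T').card = (Finset.univ.filter fun j : Fin D =>
        2 * q' * (T'.image (ρ j)).card < Fintype.card Λ.L).card := by
      unfold poorLevels
      simp
    rw [← h2, hcardX, ← hS] at h1
    by_contra hcon
    push Not at hcon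
    have h3 : j ≤ (poorLevels (2 * q') ρ 0 T').card := by omega
    have h4 : (q' ^ S) ^ j ≤ (b ^ D) ^ S * 2 ^ D := by
      refine le_trans ?_ h1
      exact Nat.pow_le_pow_right (by positivity) h3
    have h5 : (b ^ D) ^ S * 2 ^ D ≤ (((2 * b) ^ (4 * N)) ^ j) ^ S := by
      calc (b ^ D) ^ S * 2 ^ D ≤ (b ^ D) ^ S * (2 ^ D) ^ S :=
            Nat.mul_le_mul_left _ (Nat.le_self_pow hS0.ne' _)
        _ = ((2 * b) ^ D) ^ S := by rw [← mul_pow, ← mul_pow, mul_comm b 2]
        _ = (((2 * b) ^ (4 * N)) ^ j) ^ S := by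
            rw [← pow_mul (2 * b) (4 * N) j, hD]
    have h6 : (((2 * b) ^ (4 * N)) ^ j) ^ S < (q' ^ j) ^ S := by
      apply Nat.pow_lt_pow_left _ hS0.ne'
      apply Nat.pow_lt_pow_left _ (by omega)
      omega
    have h7 : (q' ^ S) ^ j = (q' ^ j) ^ S := by
      rw [← pow_mul, ← pow_mul, mul_comm]
    omega
  -- the bound for free sets
  have hfree : ∀ T : Finset (Fin D → Fin b), FreeOn F (treeGraph F Λ ρ) T →
      T.card < b ^ (3 * j) := by
    intro T hT
    have h1 := card_le_of_freeOn F hhits ha0 ha ρ (by omega) S hS0 D 0 (by omega) (j - 1) T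
      (fun x _ y _ l' hl' => by omega) hT (fun T' _ hT' => hpoor T' hT')
    refine lt_of_le_of_lt h1 ?_
    rw [show j - 1 + 1 = j by omega]
    have h2 : a ^ D ≤ b ^ j := by
      rw [hD, pow_mul]
      exact Nat.pow_le_pow_left haN j
    calc S * b ^ j * a ^ D ≤ S * b ^ j * b ^ j := Nat.mul_le_mul_left _ h2
      _ < b ^ j * b ^ j * b ^ j := by
          apply Nat.mul_lt_mul_of_pos_right _ (by positivity)
          exact Nat.mul_lt_mul_of_pos_right hjS (by positivity)
      _ = b ^ (3 * j) := by ring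
  -- restriction to `n` vertices
  obtain ⟨φ⟩ : Nonempty (Fin n ↪ (Fin D → Fin b)) := by
    apply Function.Embedding.nonempty_of_card_le
    rw [Fintype.card_fin, hcardX, ← hBD]
    exact hnup.le
  refine ⟨(treeGraph F Λ ρ).comap φ, ?_, b ^ (3 * j), ?_, ?_⟩
  · exact (treeGraph_locallyFlexible hr hF hQ hproj hsep ρ).of_contains
      ((treeGraph F Λ ρ).contains_comap φ)
  · intro R hR
    have := hfree (R.map φ) hR.map
    rwa [Finset.card_map] at this
  · calc (b ^ (3 * j)) ^ N₁ ≤ (b ^ (3 * j)) ^ N :=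
          Nat.pow_le_pow_right (by positivity) (by omega)
      _ = b ^ (3 * j * N) := (pow_mul _ _ _).symm
      _ ≤ b ^ (4 * N * (j - 1)) := by
          apply Nat.pow_le_pow_right (by omega)
          obtain ⟨i, hi⟩ : ∃ i, j = i + 4 := ⟨j - 4, by omega⟩
          rw [hi, show i + 4 - 1 = i + 3 by omega]
          nlinarith
      _ = B ^ (j - 1) := by rw [hB, ← pow_mul]
      _ ≤ n := hnlow

theorem hasBase [Fintype W] (hr : 2 ≤ r) {F : RGraph r W} (hF : F.edges.Nonempty) (k : ℕ) :
    HasBase F (k + 1) := by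
  induction k with
  | zero => exact hasBase_one F
  | succ k ih => exact hasBase_succ hr hF ih

end Pool.Agent.Work.MP_f35e27_co
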