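import Pool.Agent.Work.MP_f35e27_co.Defs

/-!
# The tree construction
-/

open Classical

namespace Pool.Agent.Work.MP_f35e27_co

open RGraph

/-- Local data for the construction: labels, and for every index a map from the `b` children to the
vertices of `F` and a set of labels for every child. -/
structure LocalData (W : Type) (b : ℕ) where
  /-- labels -/
  L : Type
  /-- indices -/
  I : Type
  /-- the labels of the index `i` at the child `c` -/
  K : I → Fin b → Set L
  /-- the vertex of `F` which the index `i` attributes to the child `c` -/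
  p : I → Fin b → W

variable {r b : ℕ} {W : Type} {Λ : LocalData W b}

/-- The `r`-graph on the words of length `D` given by the local data and the labels `ρ`. -/
def treeGraph (F : RGraph r W) (Λ : LocalData W b) {D : ℕ}
    (ρ : Fin D → (Fin D → Fin b) → Λ.L) : RGraph r (Fin D → Fin b) where
  edges := {e | e.card = r ∧ ∃ (l : Fin D) (i : Λ.I),
    (∀ x ∈ e, ∀ y ∈ e, ∀ l' < l, x l' = y l') ∧ (∀ x ∈ e, ρ l x ∈ Λ.K i (x l)) ∧
      e.image (fun x => Λ.p i (x l)) ∈ F.edges}
  uniform := fun _ he => he.1

/-- The levels `≥ l` at which `T'` has few labels. -/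
noncomputable def poorLevels [Fintype Λ.L] (q : ℕ) {D : ℕ} (ρ : Fin D → (Fin D → Fin b) → Λ.L)
    (l : ℕ) (T' : Finset (Fin D → Fin b)) : Finset (Fin D) :=
  Finset.univ.filter fun j => l ≤ j.1 ∧ q * (T'.image (ρ j)).card < Fintype.card Λ.L

end Pool.Agent.Work.MP_f35e27_co
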