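import Pool.Agent.Work.MP_f35e27_co.LocalQ

/-!
# Existence of the local data over a base graph
-/

open Classical

namespace Pool.Agent.Work.MP_f35e27_co

open RGraph

variable {r b : ℕ} {W : Type}

lemma curveData_hits [Nonempty W] [Fintype W] {𝔽 : Type} [Field 𝔽] [Fintype 𝔽] {u t e : ℕ}
    {F : RGraph r W} {Q : RGraph r (Fin b)} (x : Fin b × Fin u ↪ 𝔽)
    (ι : Copies F Q × Fin t ↪ 𝔽) [inst : Fintype (curveData u t e F Q x ι).L] (q : ℕ)
    (ht : 0 < t) (hN : Fintype.card 𝔽 < (t + 1) * Fintype.card (Copies F Q))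
    (hu : 2 * Fintype.card W * q * e * Fintype.card (Copies F Q) < u) :
    (curveData u t e F Q x ι).HitsCopies F Q q := by
  intro g hg Fs hFs
  set N := Fintype.card 𝔽 with hNdef
  set M := Fintype.card (Copies F Q) with hM
  set m := Fintype.card W with hm
  have hN0 : 0 < N := Fintype.card_pos
  have hcardL : Fintype.card (curveData u t e F Q x ι).L = u * N ^ e := by
    have h1 : Fintype.card (curveData u t e F Q x ι).L =
      Fintype.card (Fin u × (Fin e → 𝔽)) := Fintype.card_congr (Equiv.refl _)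
    rw [h1, Fintype.card_prod, Fintype.card_fun, Fintype.card_fin, Fintype.card_fin]
  rw [hcardL] at hFs
  obtain ⟨Fs', hFs'⟩ : ∃ Fs' : W → Finset (Fin u × (Fin e → 𝔽)), Fs' = Fs := ⟨Fs, rfl⟩
  have hFs : ∀ w, u * N ^ e ≤ q * (Fs' w).card := by rw [hFs']; exact hFs
  let A : W → Fin u → Finset (Fin e → 𝔽) := fun w v =>
    Finset.univ.filter fun P => ((v, P) : Fin u × (Fin e → 𝔽)) ∈ Fs' w
  have hA : ∀ w, ∑ v, (A w v).card = (Fs' w).card := by
    intro w
    rw [Finset.card_eq_sum_card_fiberwise (s := Fs' w) (f := fun s : Fin u × (Fin e → 𝔽) => s.1)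
      (t := Finset.univ) (fun x _ => Finset.mem_coe.mpr (Finset.mem_univ _))]
    apply Finset.sum_congr rfl
    intro v _
    apply Finset.card_bij (fun P _ => ((v, P) : Fin u × (Fin e → 𝔽)))
    · intro P hP
      exact Finset.mem_filter.mpr ⟨(Finset.mem_filter.mp hP).2, rfl⟩
    · intro P _ P' _ h
      exact congrArg Prod.snd h
    · rintro ⟨v', P⟩ hs
      rw [Finset.mem_filter] at hs
      obtain ⟨h1, rfl⟩ := hs
      exact ⟨P, Finset.mem_filter.mpr ⟨Finset.mem_univ _, h1⟩, rfl⟩
  let bad : W → Finset (Fin (e + 1) → 𝔽) := fun w =>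
    Finset.univ.filter fun l => ∀ v, ptm (x (g w, v)) l ∉ A w v
  have hbad : ∀ w, (bad w).card * u ≤ q * e * N ^ (e + 1) := by
    intro w
    have h1 := card_miss (fun v => x (g w, v))
      (fun v v' h => congrArg Prod.snd (x.injective h)) (A w)
    have h2 : (bad w).card * (Fs' w).card ≤ e * N ^ (2 * e + 1) := by
      rw [← hA w]
      have h3 : (((bad w).card * ∑ v, (A w v).card : ℕ) : ℝ) ≤
          ((e * N ^ (2 * e + 1) : ℕ) : ℝ) := by
        push_cast
        exact h1
      exact_mod_cast h3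
    have h4 : (bad w).card * u * N ^ e ≤ q * e * N ^ (e + 1) * N ^ e := by
      calc (bad w).card * u * N ^ e = (bad w).card * (u * N ^ e) := by ring
        _ ≤ (bad w).card * (q * (Fs' w).card) := Nat.mul_le_mul_left _ (hFs w)
        _ = q * ((bad w).card * (Fs' w).card) := by ring
        _ ≤ q * (e * N ^ (2 * e + 1)) := Nat.mul_le_mul_left _ h2
        _ = q * e * N ^ (e + 1) * N ^ e := by
          rw [show 2 * e + 1 = (e + 1) + e by ring, pow_add]
          ring
    exact Nat.le_of_mul_le_mul_right h4 (by positivity)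
  -- the lines with the copy `g`
  let g₀ : Copies F Q := ⟨g, hg⟩
  let lines : Finset (Fin (e + 1) → 𝔽) := (Finset.univ : Finset (Fin t × (Fin e → 𝔽))).image
    fun s => lineOf ι ((g₀, s.1), s.2)
  have hlines : lines.card = t * N ^ e := by
    rw [Finset.card_image_of_injective, Finset.card_univ, Fintype.card_prod, Fintype.card_fun,
      Fintype.card_fin, Fintype.card_fin]
    intro s s' h
    have h1 := lineOf_inj ι.injective h
    simp only [Prod.mk.injEq, true_and] at h1
    exact Prod.ext h1.1 h1.2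
  have hex : ∃ l ∈ lines, ∀ w, l ∉ bad w := by
    by_contra hcon
    push Not at hcon
    have hsub : lines ⊆ Finset.univ.biUnion bad := by
      intro l hl
      obtain ⟨w, hw⟩ := hcon l hl
      exact Finset.mem_biUnion.mpr ⟨w, Finset.mem_univ _, hw⟩
    have h1 : t * N ^ e ≤ ∑ w, (bad w).card := by
      rw [← hlines]
      exact (Finset.card_le_card hsub).trans Finset.card_biUnion_le
    have h3 : t * u * N ^ e ≤ m * q * e * N * N ^ e := by
      calc t * u * N ^ e = t * N ^ e * u := by ring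
        _ ≤ (∑ w, (bad w).card) * u := Nat.mul_le_mul_right _ h1
        _ = ∑ w, (bad w).card * u := by rw [Finset.sum_mul]
        _ ≤ ∑ _w : W, q * e * N ^ (e + 1) := Finset.sum_le_sum (fun w _ => hbad w)
        _ = m * (q * e * N ^ (e + 1)) := by rw [Finset.sum_const, Finset.card_univ, smul_eq_mul]
        _ = m * q * e * N * N ^ e := by rw [pow_succ]; ring
    have h4 : t * u ≤ m * q * e * N := Nat.le_of_mul_le_mul_right h3 (by positivity)
    have h5 : N ≤ 2 * t * M := by nlinarith
    have h6 : t * u ≤ t * (2 * m * q * e * M) := by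
      calc t * u ≤ m * q * e * N := h4
        _ ≤ m * q * e * (2 * t * M) := Nat.mul_le_mul_left _ h5
        _ = t * (2 * m * q * e * M) := by ring
    have h7 : u ≤ 2 * m * q * e * M := Nat.le_of_mul_le_mul_left h6 ht
    omega
  obtain ⟨l, hl, hlbad⟩ := hex
  obtain ⟨s, _, rfl⟩ := Finset.mem_image.mp hl
  refine ⟨((g₀, s.1), s.2), fun w => ⟨Function.leftInverse_invFun g.injective w, ?_⟩⟩
  have h1 := hlbad w
  have h2 : ∃ v, ptm (x (g w, v)) (lineOf ι ((g₀, s.1), s.2)) ∈ A w v := by
    by_contra hcon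
    push Not at hcon
    exact h1 (Finset.mem_filter.mpr ⟨Finset.mem_univ _, hcon⟩)
  obtain ⟨v, hv⟩ := h2
  refine ⟨(v, ptm (x (g w, v)) (lineOf ι ((g₀, s.1), s.2))), ?_, ⟨w, rfl⟩, rfl⟩
  rw [← hFs']
  exact (Finset.mem_filter.mp hv).2

/-- Existence of the local data over a base graph. -/
theorem exists_curveData [Nonempty W] [Fintype W] (F : RGraph r W) (Q : RGraph r (Fin b))
    (q e : ℕ) :
    ∃ (Λ : LocalData W b) (_ : Fintype Λ.L) (_ : Nonempty Λ.L), Λ.Projects F Q ∧
      Λ.Separates (e + 1) ∧ Λ.HitsCopies F Q q := by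
  set M := Fintype.card (Copies F Q) with hM
  set u := 2 * Fintype.card W * q * e * M + 1 with hu
  obtain ⟨N, hN, hNp⟩ := Nat.exists_infinite_primes (b * u + M)
  have : Fact N.Prime := ⟨hNp⟩
  have hcard : Fintype.card (ZMod N) = N := ZMod.card N
  set t := N / M with ht
  have htM : M * t ≤ N := Nat.mul_div_le N M
  obtain ⟨x⟩ : Nonempty (Fin b × Fin u ↪ ZMod N) := by
    apply Function.Embedding.nonempty_of_card_le
    rw [Fintype.card_prod, Fintype.card_fin, Fintype.card_fin, hcard]
    omega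
  obtain ⟨ι⟩ : Nonempty (Copies F Q × Fin t ↪ ZMod N) := by
    apply Function.Embedding.nonempty_of_card_le
    rw [Fintype.card_prod, Fintype.card_fin, hcard]
    exact htM
  refine ⟨curveData u t e F Q x ι, (inferInstance : Fintype (Fin u × (Fin e → ZMod N))),
    (⟨(⟨0, Nat.succ_pos _⟩, 0)⟩ : Nonempty (Fin u × (Fin e → ZMod N))),
    curveData_projects x ι, curveData_separates x ι, ?_⟩
  intro g hg
  have hM0 : 0 < M := Fintype.card_pos_iff.mpr ⟨⟨g, hg⟩⟩
  have ht0 : 0 < t := Nat.div_pos (by omega) hM0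
  have htM2 : N < (t + 1) * M := by
    have := Nat.lt_mul_div_succ N hM0
    rw [mul_comm]
    exact this
  exact curveData_hits (inst := (inferInstance : Fintype (Fin u × (Fin e → ZMod N)))) x ι q ht0
    (by rw [hcard]; exact htM2) (Nat.lt_succ_self _) g hg

end Pool.Agent.Work.MP_f35e27_co
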