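import Pool.Agent.Work.MP_f35e27_co.Hyper
import Pool.Agent.Work.MP_f35e27_co.Local

/-!
# Local data over a base graph
-/

open Classical

namespace Pool.Agent.Work.MP_f35e27_co

open RGraph

variable {r b : ℕ} {W : Type}

/-- The copies of `F` in `Q`. -/
abbrev Copies (F : RGraph r W) (Q : RGraph r (Fin b)) : Type :=
  {g : W ↪ Fin b // ∀ f ∈ F.edges, f.map g ∈ Q.edges}

namespace LocalData

/-- The sets of children which an index sends to edges of `F` are edges of `Q`. -/
def Projects (Λ : LocalData W b) (F : RGraph r W) (Q : RGraph r (Fin b)) : Prop :=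
  ∀ (i : Λ.I) (C : Finset (Fin b)), (∀ c ∈ C, ∃ s, s ∈ Λ.K i c) →
    C.image (Λ.p i) ∈ F.edges → C ∈ Q.edges

/-- For at most `k` children with labels and any index, the map of the index on the children whose
labels it contains can be extended to a map which is constant on the labels of any other index. -/
def Separates (Λ : LocalData W b) (k : ℕ) : Prop :=
  ∀ (C : Finset (Fin b)) (lab : Fin b → Λ.L), C.card ≤ k → ∀ i₀, ∃ f : Fin b → W,
    (∀ c ∈ C, lab c ∈ Λ.K i₀ c → f c = Λ.p i₀ c) ∧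
    ∀ i, i ≠ i₀ → ∃ w, ∀ c ∈ C, lab c ∈ Λ.K i c → f c = w

/-- For all large sets of labels at the children in a copy of `F` there is an index which hits them
all. -/
def HitsCopies (Λ : LocalData W b) [Fintype Λ.L] (F : RGraph r W) (Q : RGraph r (Fin b))
    (q : ℕ) : Prop :=
  ∀ g : W ↪ Fin b, (∀ f ∈ F.edges, f.map g ∈ Q.edges) → ∀ Fs : W → Finset Λ.L,
    (∀ w, Fintype.card Λ.L ≤ q * (Fs w).card) →
      ∃ i, ∀ w, Λ.p i (g w) = w ∧ ∃ s ∈ Fs w, s ∈ Λ.K i (g w)

end LocalData

/-- The line of an index. -/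
def lineOf {𝔽 I : Type} {e : ℕ} (ι : I → 𝔽) (i : I × (Fin e → 𝔽)) : Fin (e + 1) → 𝔽 :=
  Fin.cons (ι i.1) i.2

lemma lineOf_inj {𝔽 I : Type} {e : ℕ} {ι : I → 𝔽} (hι : Function.Injective ι)
    {i i' : I × (Fin e → 𝔽)} (h : lineOf ι i = lineOf ι i') : i = i' := by
  unfold lineOf at h
  have h1 := congrFun h 0
  rw [Fin.cons_zero, Fin.cons_zero] at h1
  refine Prod.ext (hι h1) ?_
  funext j
  have h2 := congrFun h j.succ
  rwa [Fin.cons_succ, Fin.cons_succ] at h2

/-- The local data given by lines whose directions are on the moment curve. -/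
noncomputable def curveData [Nonempty W] {𝔽 : Type} [Field 𝔽] (u t e : ℕ) (F : RGraph r W)
    (Q : RGraph r (Fin b)) (x : Fin b × Fin u ↪ 𝔽) (ι : Copies F Q × Fin t ↪ 𝔽) :
    LocalData W b where
  L := Fin u × (Fin e → 𝔽)
  I := (Copies F Q × Fin t) × (Fin e → 𝔽)
  K := fun i c => {s | c ∈ Set.range i.1.1.1 ∧ s.2 = ptm (x (c, s.1)) (lineOf ι i)}
  p := fun i => Function.invFun i.1.1.1

section

variable [Nonempty W] {𝔽 : Type} [Field 𝔽] {u t e : ℕ} {F : RGraph r W}
    {Q : RGraph r (Fin b)} (x : Fin b × Fin u ↪ 𝔽) (ι : Copies F Q × Fin t ↪ 𝔽)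

lemma curveData_projects : (curveData u t e F Q x ι).Projects F Q := by
  intro i C hC hF
  have h1 : C = (C.image ((curveData u t e F Q x ι).p i)).map i.1.1.1 := by
    rw [Finset.map_eq_image, Finset.image_image]
    symm
    rw [← Finset.image_id (s := C)]
    rw [Finset.image_id]
    conv_rhs => rw [← Finset.image_id (s := C)]
    apply Finset.image_congr
    intro c hc
    obtain ⟨s, hs, -⟩ := hC c hc
    obtain ⟨w, rfl⟩ := hs
    show i.1.1.1 (Function.invFun i.1.1.1 (i.1.1.1 w)) = i.1.1.1 w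
    rw [Function.leftInverse_invFun i.1.1.1.injective]
  rw [h1]
  exact i.1.1.2 _ hF

open Polynomial in
lemma curveData_separates : (curveData u t e F Q x ι).Separates (e + 1) := by
  intro C lab hC i₀
  obtain ⟨lab', hlab'⟩ : ∃ lab' : Fin b → Fin u × (Fin e → 𝔽), lab' = lab := ⟨lab, rfl⟩
  obtain ⟨j₀, hj₀⟩ : ∃ j₀ : (Copies F Q × Fin t) × (Fin e → 𝔽), j₀ = i₀ := ⟨i₀, rfl⟩
  let ξ : Fin b → 𝔽 := fun c => x (c, (lab' c).1)
  have hξ : Function.Injective ξ := fun c c' h => congrArg Prod.fst (x.injective h)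
  -- the incidence relation
  let Inc : (Copies F Q × Fin t) × (Fin e → 𝔽) → Fin b → Prop := fun i c =>
    c ∈ Set.range i.1.1.1 ∧ (lab' c).2 = ptm (ξ c) (lineOf ι i)
  have hInc : ∀ (i : (curveData u t e F Q x ι).I) (c : Fin b),
      lab c ∈ (curveData u t e F Q x ι).K i c ↔ Inc i c := by
    intro i c
    rw [← hlab']
    exact Iff.rfl
  let P : Fin b → 𝔽[X] := fun c => ∏ c' ∈ C.erase c, (X - Polynomial.C (ξ c'))
  have hdeg : ∀ c ∈ C, (P c).natDegree < e + 1 := by
    intro c hc
    show (∏ c' ∈ C.erase c, (X - Polynomial.C (ξ c'))).natDegree < e + 1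
    rw [Polynomial.natDegree_prod_of_monic _ _ (fun c' _ => Polynomial.monic_X_sub_C _)]
    simp only [Polynomial.natDegree_X_sub_C, Finset.sum_const, smul_eq_mul, mul_one]
    rw [Finset.card_erase_of_mem hc]
    have : 0 < C.card := Finset.card_pos.mpr ⟨c, hc⟩
    omega
  have heval0 : ∀ c, ∀ c' ∈ C, c' ≠ c → (P c).eval (ξ c') = 0 := by
    intro c c' hc' hne
    show (∏ c' ∈ C.erase c, (X - Polynomial.C (ξ c'))).eval (ξ c') = 0
    rw [Polynomial.eval_prod]
    apply Finset.prod_eq_zero (Finset.mem_erase.mpr ⟨hne, hc'⟩)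
    simp
  have heval1 : ∀ c, (P c).eval (ξ c) ≠ 0 := by
    intro c
    show (∏ c' ∈ C.erase c, (X - Polynomial.C (ξ c'))).eval (ξ c) ≠ 0
    rw [Polynomial.eval_prod]
    apply Finset.prod_ne_zero_iff.mpr
    intro c' hc'
    simp only [Polynomial.eval_sub, Polynomial.eval_X, Polynomial.eval_C]
    rw [sub_ne_zero]
    intro h
    exact (Finset.mem_erase.mp hc').1 (hξ h).symm
  let φ : Fin b → (Fin (e + 1) → 𝔽) → 𝔽 := fun c v => ∑ j : Fin (e + 1), (P c).coeff j * v j
  have hφ : ∀ c ∈ C, ∀ c' : Fin b, ∀ i i', Inc i c' → Inc i' c' →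
      φ c (lineOf ι i) - φ c (lineOf ι i') =
        (lineOf ι i 0 - lineOf ι i' 0) * (P c).eval (ξ c') := by
    intro c hc c' i i' hi hi'
    have h1 : ptm (ξ c') (lineOf ι i) = ptm (ξ c') (lineOf ι i') := by rw [← hi.2, ← hi'.2]
    rw [Polynomial.eval_eq_sum_range' (hdeg c hc), Finset.mul_sum, ← Finset.sum_sub_distrib,
      ← Fin.sum_univ_eq_sum_range (fun j => (lineOf ι i 0 - lineOf ι i' 0) *
        ((P c).coeff j * ξ c' ^ j)) (e + 1)]
    apply Finset.sum_congr rfl
    intro j _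
    rw [← mul_sub, sub_of_ptm h1 j]
    ring
  let B₀ : Finset (Fin b) := C.filter fun c => Inc j₀ c
  let T : (Copies F Q × Fin t) × (Fin e → 𝔽) → Finset (Fin b) := fun i =>
    B₀.filter fun c => φ c (lineOf ι i) - φ c (lineOf ι j₀) ≠ 0
  let p₀ : Fin b → W := (curveData u t e F Q x ι).p i₀
  let F₀ : Finset (Fin b) → W := fun S => if h : S.Nonempty then p₀ h.choose
    else Classical.arbitrary W
  refine ⟨fun c => if c ∈ B₀ then p₀ c else if h : ∃ i, Inc i c then F₀ (T h.choose)
    else Classical.arbitrary W, ?_, ?_⟩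
  · intro c hc hlab
    rw [hInc, ← hj₀] at hlab
    show (if c ∈ B₀ then p₀ c else _) = p₀ c
    rw [if_pos (Finset.mem_filter.mpr ⟨hc, hlab⟩)]
  · intro i hi
    obtain ⟨i', hi'⟩ : ∃ i' : (Copies F Q × Fin t) × (Fin e → 𝔽), i' = i := ⟨i, rfl⟩
    refine ⟨F₀ (T i'), ?_⟩
    intro c hc hlab
    rw [hInc, ← hi'] at hlab
    have hne : i' ≠ j₀ := by
      rw [hi', hj₀]
      exact hi
    show (if c ∈ B₀ then p₀ c else if h : ∃ i, Inc i c then F₀ (T h.choose)
      else Classical.arbitrary W) = F₀ (T i')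
    by_cases hcB : c ∈ B₀
    · rw [if_pos hcB]
      have hc0 := (Finset.mem_filter.mp hcB).2
      have hT : T i' = {c} := by
        ext c''
        simp only [T, Finset.mem_filter, Finset.mem_singleton]
        constructor
        · rintro ⟨hc'', h⟩
          by_contra hcc
          apply h
          rw [hφ c'' (Finset.mem_filter.mp hc'').1 c i' j₀ hlab hc0,
            heval0 c'' c hc (fun h => hcc h.symm), mul_zero]
        · rintro rfl
          refine ⟨hcB, ?_⟩
          rw [hφ c'' hc c'' i' j₀ hlab hc0]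
          apply mul_ne_zero _ (heval1 c'')
          rw [sub_ne_zero]
          intro h
          apply hne
          apply lineOf_inj ι.injective
          exact eq_of_ptm (x := ξ c'') (by rw [← hlab.2, ← hc0.2]) h
      rw [hT]
      show p₀ c = if h : ({c} : Finset (Fin b)).Nonempty then p₀ h.choose
        else Classical.arbitrary W
      have hsn : ({c} : Finset (Fin b)).Nonempty := Finset.singleton_nonempty c
      rw [dif_pos hsn, Finset.mem_singleton.mp hsn.choose_spec]
    · rw [if_neg hcB]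
      have hex : ∃ i, Inc i c := ⟨i', hlab⟩
      rw [dif_pos hex]
      congr 1
      ext c''
      simp only [T, Finset.mem_filter]
      apply and_congr_right
      intro hc''
      have hcc : c ≠ c'' := fun h => hcB (h ▸ hc'')
      have h1 := hφ c'' (Finset.mem_filter.mp hc'').1 c hex.choose i' hex.choose_spec hlab
      rw [heval0 c'' c hc hcc, mul_zero, sub_eq_zero] at h1
      rw [h1]

end

end Pool.Agent.Work.MP_f35e27_co
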