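import Mathlib

/-!
# Functions constant along directions of the moment curve: a second moment inequality
-/

open Classical

namespace Pool.Agent.Work.MP_f35e27_co

section Moment

variable {𝔽 : Type} [Field 𝔽] {d : ℕ}

/-- The points of the moment curve. -/
def mom (d : ℕ) (x : 𝔽) : Fin d → 𝔽 := fun j => x ^ (j : ℕ)

/-- The directions along which `f` is constant. -/
def invSub (f : (Fin d → 𝔽) → ℝ) : Submodule 𝔽 (Fin d → 𝔽) where
  carrier := {w | ∀ (t : 𝔽) (v : Fin d → 𝔽), f (v + t • w) = f v}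
  add_mem' := by
    intro w w' hw hw' t v
    rw [smul_add, ← add_assoc, hw', hw]
  zero_mem' := by
    intro t v
    rw [smul_zero, add_zero]
  smul_mem' := by
    intro s w hw t v
    rw [smul_smul, hw]

lemma mem_invSub {f : (Fin d → 𝔽) → ℝ} {w : Fin d → 𝔽} :
    w ∈ invSub f ↔ ∀ (t : 𝔽) (v : Fin d → 𝔽), f (v + t • w) = f v := Iff.rfl

lemma invSub_eq_top {f : (Fin d → 𝔽) → ℝ} (Z : Finset 𝔽) (hZ : Z.card = d)
    (h : ∀ z ∈ Z, mom d z ∈ invSub f) : invSub f = ⊤ := by
  let e : Fin d ≃ Z := (Z.equivFinOfCardEq hZ).symm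
  have hli : LinearIndependent 𝔽 (fun i : Fin d => mom d ((e i : 𝔽))) := by
    have hdet : (Matrix.vandermonde (fun i => ((e i : 𝔽)))).det ≠ 0 := by
      rw [Matrix.det_vandermonde_ne_zero_iff]
      exact fun a b hab => e.injective (Subtype.ext hab)
    exact Matrix.linearIndependent_rows_of_det_ne_zero hdet
  have hspan := hli.span_eq_top_of_card_eq_finrank' (by simp)
  rw [eq_top_iff, ← hspan, Submodule.span_le]
  rintro _ ⟨i, rfl⟩
  exact h _ (e i).2

variable [Fintype 𝔽]

/-- The average in the direction of a point of the moment curve. -/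
noncomputable def avg (x : 𝔽) (f : (Fin d → 𝔽) → ℝ) : (Fin d → 𝔽) → ℝ :=
  fun v => (∑ t : 𝔽, f (v + t • mom d x)) / (Fintype.card 𝔽 : ℝ)

lemma card_pos' : (0 : ℝ) < (Fintype.card 𝔽 : ℝ) := by exact_mod_cast Fintype.card_pos

lemma avg_of_inv {x : 𝔽} {f : (Fin d → 𝔽) → ℝ} (h : mom d x ∈ invSub f) : avg x f = f := by
  funext v
  unfold avg
  rw [Finset.sum_congr rfl (fun t _ => h t v), Finset.sum_const, Finset.card_univ, nsmul_eq_mul]
  have := card_pos' (𝔽 := 𝔽)
  field_simp

lemma mem_invSub_avg (x : 𝔽) (f : (Fin d → 𝔽) → ℝ) : mom d x ∈ invSub (avg x f) := by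
  intro s v
  unfold avg
  congr 1
  apply Fintype.sum_equiv (Equiv.addLeft s)
  intro t
  show f _ = f (v + (s + t) • mom d x)
  rw [add_smul, add_assoc]

lemma avg_inv (x : 𝔽) {f : (Fin d → 𝔽) → ℝ} {w : Fin d → 𝔽} (h : w ∈ invSub f) :
    w ∈ invSub (avg x f) := by
  intro s v
  unfold avg
  congr 1
  apply Finset.sum_congr rfl
  intro t _
  rw [add_right_comm, h]

lemma sum_shift (f : (Fin d → 𝔽) → ℝ) (w : Fin d → 𝔽) : ∑ v, f (v + w) = ∑ v, f v := by
  apply Fintype.sum_equiv (Equiv.addRight w)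
  intro v
  rfl

lemma sum_avg (x : 𝔽) (f : (Fin d → 𝔽) → ℝ) : ∑ v, avg x f v = ∑ v, f v := by
  unfold avg
  rw [← Finset.sum_div, Finset.sum_comm]
  simp_rw [sum_shift]
  rw [Finset.sum_const, Finset.card_univ, nsmul_eq_mul]
  have := card_pos' (𝔽 := 𝔽)
  field_simp

lemma avg_adj (x : 𝔽) (f g : (Fin d → 𝔽) → ℝ) :
    ∑ v, avg x f v * g v = ∑ v, f v * avg x g v := by
  unfold avg
  have h1 : ∀ v, (∑ t : 𝔽, f (v + t • mom d x)) / (Fintype.card 𝔽 : ℝ) * g v =
      (∑ t : 𝔽, f (v + t • mom d x) * g v) / (Fintype.card 𝔽 : ℝ) := by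
    intro v
    rw [div_mul_eq_mul_div, Finset.sum_mul]
  have h2 : ∀ v, f v * ((∑ t : 𝔽, g (v + t • mom d x)) / (Fintype.card 𝔽 : ℝ)) =
      (∑ t : 𝔽, f v * g (v + t • mom d x)) / (Fintype.card 𝔽 : ℝ) := by
    intro v
    rw [← mul_div_assoc, Finset.mul_sum]
  simp_rw [h1, h2]
  rw [← Finset.sum_div, ← Finset.sum_div, Finset.sum_comm, Finset.sum_comm (s := Finset.univ)
    (t := Finset.univ) (f := fun v t => f v * g (v + t • mom d x))]
  congr 1
  apply Fintype.sum_equiv (Equiv.neg 𝔽)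
  intro t
  rw [← sum_shift (fun v => f v * g (v + (Equiv.neg 𝔽) t • mom d x)) (t • mom d x)]
  apply Finset.sum_congr rfl
  intro v _
  congr 2
  show v = v + t • mom d x + (-t) • mom d x
  rw [neg_smul, add_neg_cancel_right]

lemma avg_sq (x : 𝔽) (f : (Fin d → 𝔽) → ℝ) :
    ∑ v, avg x f v ^ 2 = ∑ v, f v * avg x f v := by
  have h1 : ∑ v, avg x f v ^ 2 = ∑ v, avg x f v * avg x f v :=
    Finset.sum_congr rfl (fun v _ => by ring)
  rw [h1, avg_adj, avg_of_inv (mem_invSub_avg x f)]

lemma inner_avg {x x' : 𝔽} {f g : (Fin d → 𝔽) → ℝ} (hf : mom d x ∈ invSub f)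
    (hg : mom d x' ∈ invSub g) : ∑ v, f v * g v = ∑ v, avg x' f v * avg x g v := by
  rw [← avg_adj x, avg_of_inv (avg_inv x' hf), avg_adj, avg_of_inv hg]

/-- The second moment inequality. -/
theorem second_moment {ι : Type} (x : ι → 𝔽) (hx : Function.Injective x) :
    ∀ (j : ℕ) (Y : Finset 𝔽) (s : Finset ι) (f : ι → (Fin d → 𝔽) → ℝ), Y.card + 1 + j = d →
      (∀ i ∈ s, x i ∉ Y) → (∀ i ∈ s, ∑ v, f i v = 0) → (∀ i ∈ s, mom d (x i) ∈ invSub (f i)) →
      (∀ i ∈ s, ∀ y ∈ Y, mom d y ∈ invSub (f i)) →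
      ∑ v, (∑ i ∈ s, f i v) ^ 2 ≤ (j : ℝ) * ∑ i ∈ s, ∑ v, f i v ^ 2 := by
  intro j
  induction j with
  | zero =>
    intro Y s f hY hxY hmean hxi hYi
    have h0 : ∀ i ∈ s, ∀ v, f i v = 0 := by
      intro i hi
      have h1 : invSub (f i) = ⊤ := by
        apply invSub_eq_top (insert (x i) Y)
        · rw [Finset.card_insert_of_notMem (hxY i hi)]
          omega
        · intro z hz
          rcases Finset.mem_insert.mp hz with rfl | hz
          · exact hxi i hi
          · exact hYi i hi z hz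
      have h2 : ∀ v, f i v = f i 0 := by
        intro v
        have h3 : v ∈ invSub (f i) := by rw [h1]; exact Submodule.mem_top
        have h4 := h3 1 0
        rwa [one_smul, zero_add] at h4
      have h3 := hmean i hi
      rw [Finset.sum_congr rfl (fun v _ => h2 v), Finset.sum_const, nsmul_eq_mul] at h3
      have h4 : ((Finset.univ : Finset (Fin d → 𝔽)).card : ℝ) ≠ 0 := by
        rw [Finset.card_univ]
        exact_mod_cast Fintype.card_ne_zero
      intro v
      rw [h2 v]
      exact (mul_eq_zero.mp h3).resolve_left h4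
    have h1 : ∑ v, (∑ i ∈ s, f i v) ^ 2 = 0 := by
      apply Finset.sum_eq_zero
      intro v _
      rw [Finset.sum_eq_zero (fun i hi => h0 i hi v)]
      ring
    rw [h1]
    simp
  | succ j ih =>
    intro Y s f hY hxY hmean hxi hYi
    set a : ι → ι → ℝ := fun i i' => ∑ v, avg (x i') (f i) v ^ 2 with ha
    -- the bound for a single function
    have key : ∀ i ∈ s, ∑ i' ∈ s.erase i, a i i' ≤ (j : ℝ) * ∑ v, f i v ^ 2 := by
      intro i hi
      have h1 := ih (insert (x i) Y) (s.erase i) (fun i' => avg (x i') (f i))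
        (by rw [Finset.card_insert_of_notMem (hxY i hi)]; omega)
        (by
          intro i' hi'
          rw [Finset.mem_erase] at hi'
          rw [Finset.mem_insert, not_or]
          exact ⟨fun h => hi'.1 (hx h), hxY i' hi'.2⟩)
        (by
          intro i' _
          rw [sum_avg]
          exact hmean i hi)
        (by
          intro i' _
          exact mem_invSub_avg _ _)
        (by
          intro i' _ y hy
          apply avg_inv
          rcases Finset.mem_insert.mp hy with rfl | hy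
          · exact hxi i hi
          · exact hYi i hi y hy)
      set g : (Fin d → 𝔽) → ℝ := fun v => ∑ i' ∈ s.erase i, avg (x i') (f i) v with hg
      set S : ℝ := ∑ i' ∈ s.erase i, a i i' with hS
      change ∑ v, g v ^ 2 ≤ (j : ℝ) * S at h1
      have h2 : S = ∑ v, f i v * g v := by
        rw [hS, ha]
        simp_rw [avg_sq]
        rw [Finset.sum_comm]
        apply Finset.sum_congr rfl
        intro v _
        rw [hg, Finset.mul_sum]
      have h3 : 0 ≤ ∑ v, ((j : ℝ) * f i v - g v) ^ 2 :=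
        Finset.sum_nonneg (fun _ _ => sq_nonneg _)
      have h4 : ∑ v, ((j : ℝ) * f i v - g v) ^ 2 = (j : ℝ) ^ 2 * ∑ v, f i v ^ 2 -
          2 * (j : ℝ) * S + ∑ v, g v ^ 2 := by
        rw [h2, Finset.mul_sum, Finset.mul_sum, ← Finset.sum_sub_distrib,
          ← Finset.sum_add_distrib]
        apply Finset.sum_congr rfl
        intro v _
        ring
      rcases Nat.eq_zero_or_pos j with rfl | hj
      · have h5 : ∑ v, g v ^ 2 = 0 := by
          apply le_antisymm
          · simpa using h1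
          · exact Finset.sum_nonneg (fun _ _ => sq_nonneg _)
        have h6 : ∀ v, g v = 0 := by
          intro v
          have := (Finset.sum_eq_zero_iff_of_nonneg (fun v _ => sq_nonneg (g v))).mp h5 v
            (Finset.mem_univ v)
          exact pow_eq_zero_iff (two_ne_zero) |>.mp this
        rw [h2]
        simp [h6]
      · have hj' : (0 : ℝ) < (j : ℝ) := by exact_mod_cast hj
        have h5 : (j : ℝ) * S ≤ (j : ℝ) * ((j : ℝ) * ∑ v, f i v ^ 2) := by nlinarith
        exact le_of_mul_le_mul_left h5 hj'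
    have hpair : ∀ i ∈ s, ∀ i' ∈ s, ∑ v, f i v * f i' v ≤
        (if i = i' then ∑ v, f i v ^ 2 else 0) +
          ((if i = i' then 0 else a i i') + (if i = i' then 0 else a i' i)) / 2 := by
      intro i hi i' hi'
      by_cases h : i = i'
      · subst h
        rw [if_pos rfl, if_pos rfl]
        have : ∑ v, f i v * f i v = ∑ v, f i v ^ 2 :=
          Finset.sum_congr rfl (fun v _ => by ring)
        rw [this]
        linarith
      · rw [if_neg h, if_neg h, if_neg h, inner_avg (hxi i hi) (hxi i' hi'), zero_add]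
        show _ ≤ (∑ v, avg (x i') (f i) v ^ 2 + ∑ v, avg (x i) (f i') v ^ 2) / 2
        rw [← Finset.sum_add_distrib, Finset.sum_div]
        apply Finset.sum_le_sum
        intro v _
        nlinarith [sq_nonneg (avg (x i') (f i) v - avg (x i) (f i') v)]
    have hexp : ∑ v, (∑ i ∈ s, f i v) ^ 2 = ∑ i ∈ s, ∑ i' ∈ s, ∑ v, f i v * f i' v := by
      have h1 : ∀ v, (∑ i ∈ s, f i v) ^ 2 = ∑ i ∈ s, ∑ i' ∈ s, f i v * f i' v := by
        intro v
        rw [sq, Finset.sum_mul_sum]
      rw [Finset.sum_congr rfl (fun v _ => h1 v), Finset.sum_comm]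
      apply Finset.sum_congr rfl
      intro i _
      rw [Finset.sum_comm]
    have hswap : ∑ i ∈ s, ∑ i' ∈ s, (if i = i' then 0 else a i' i) =
        ∑ i ∈ s, ∑ i' ∈ s, (if i = i' then 0 else a i i') := by
      rw [Finset.sum_comm]
      apply Finset.sum_congr rfl
      intro i _
      apply Finset.sum_congr rfl
      intro i' _
      by_cases h : i = i'
      · subst h
        rw [if_pos rfl]
      · rw [if_neg h, if_neg (fun h' => h h'.symm)]
    have herase : ∀ i ∈ s, ∑ i' ∈ s, (if i = i' then 0 else a i i') =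
        ∑ i' ∈ s.erase i, a i i' := by
      intro i hi
      rw [← Finset.add_sum_erase s _ hi, if_pos rfl, zero_add]
      apply Finset.sum_congr rfl
      intro i' hi'
      rw [if_neg (fun h => (Finset.mem_erase.mp hi').1 h.symm)]
    have hdiag : ∀ i ∈ s, ∑ i' ∈ s, (if i = i' then ∑ v, f i v ^ 2 else 0) =
        ∑ v, f i v ^ 2 := by
      intro i hi
      rw [Finset.sum_ite_eq, if_pos hi]
    rw [hexp]
    calc ∑ i ∈ s, ∑ i' ∈ s, ∑ v, f i v * f i' v
        ≤ ∑ i ∈ s, ∑ i' ∈ s, ((if i = i' then ∑ v, f i v ^ 2 else 0) +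
          ((if i = i' then 0 else a i i') + (if i = i' then 0 else a i' i)) / 2) :=
          Finset.sum_le_sum (fun i hi => Finset.sum_le_sum (fun i' hi' => hpair i hi i' hi'))
      _ = ∑ i ∈ s, ∑ i' ∈ s, (if i = i' then ∑ v, f i v ^ 2 else 0) +
          (∑ i ∈ s, ∑ i' ∈ s, (if i = i' then 0 else a i i') +
            ∑ i ∈ s, ∑ i' ∈ s, (if i = i' then 0 else a i' i)) / 2 := by
          simp_rw [Finset.sum_add_distrib, ← Finset.sum_div, Finset.sum_add_distrib]
      _ = ∑ i ∈ s, ∑ v, f i v ^ 2 + ∑ i ∈ s, ∑ i' ∈ s.erase i, a i i' := by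
          rw [hswap, Finset.sum_congr rfl hdiag, Finset.sum_congr rfl herase]
          ring
      _ ≤ ∑ i ∈ s, ∑ v, f i v ^ 2 + ∑ i ∈ s, (j : ℝ) * ∑ v, f i v ^ 2 := by
          have := Finset.sum_le_sum key
          linarith
      _ = ((j + 1 : ℕ) : ℝ) * ∑ i ∈ s, ∑ v, f i v ^ 2 := by
          rw [← Finset.mul_sum]
          push_cast
          ring

end Moment

end Pool.Agent.Work.MP_f35e27_co
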