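import Pool.Agent.Work.MP_f35e27_co.LocalHits
import Pool.Agent.Work.MP_f35e27_co.Flexible

/-!
# The tree construction over a base graph
-/

open Classical

namespace Pool.Agent.Work.MP_f35e27_co

open RGraph

variable {r b : ℕ} {W : Type} {Λ : LocalData W b}

/-- The set `T` contains no copy of `F`. -/
def FreeOn {X : Type} (F : RGraph r W) (H : RGraph r X) (T : Finset X) : Prop :=
  ¬ ∃ φ : W ↪ X, (∀ w, φ w ∈ T) ∧ ∀ f ∈ F.edges, f.map φ ∈ H.edges

theorem card_le_of_freeOn [Fintype W] [Fintype Λ.L] {q : ℕ} (F : RGraph r W)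
    {Q : RGraph r (Fin b)} (hH : Λ.HitsCopies F Q q) {a : ℕ} (ha0 : 0 < a)
    (ha : ∀ R : Finset (Fin b), FreeOn F Q R → R.card < a)
    {D : ℕ} (ρ : Fin D → (Fin D → Fin b) → Λ.L) (hb : 0 < b) (S₀ : ℕ) (hS : 0 < S₀) :
    ∀ (k l : ℕ), l + k = D → ∀ (p : ℕ) (T : Finset (Fin D → Fin b)),
      (∀ x ∈ T, ∀ y ∈ T, ∀ l' : Fin D, l'.1 < l → x l' = y l') →
      FreeOn F (treeGraph F Λ ρ) T →
      (∀ T' ⊆ T, T'.card = S₀ → (poorLevels q ρ l T').card ≤ p) →
      T.card ≤ S₀ * b ^ (p + 1) * a ^ k := by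
  intro k
  induction k with
  | zero =>
    intro l hl p T hT _ _
    have h1 : T.card ≤ 1 := by
      rw [Finset.card_le_one]
      intro x hx y hy
      funext j
      exact hT x hx y hy j (by have := j.2; omega)
    refine h1.trans ?_
    rw [pow_zero, mul_one]
    exact Nat.one_le_iff_ne_zero.mpr (Nat.mul_ne_zero hS.ne' (pow_ne_zero _ hb.ne'))
  | succ k ih =>
    intro l hl p T hT hfree hpoor
    have hlD : l < D := by omega
    let j₀ : Fin D := ⟨l, hlD⟩
    let Tc : Fin b → Finset (Fin D → Fin b) := fun c => T.filter (fun x => x j₀ = c)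
    have hTc : ∀ c, Tc c ⊆ T := fun c => Finset.filter_subset _ _
    have hagree : ∀ c, ∀ x ∈ Tc c, ∀ y ∈ Tc c, ∀ l' : Fin D, l'.1 < l + 1 → x l' = y l' := by
      intro c x hx y hy l' hl'
      rcases Nat.lt_or_ge l'.1 l with h | h
      · exact hT x (hTc c hx) y (hTc c hy) l' h
      · have : l' = j₀ := Fin.ext (by show l'.1 = l; omega)
        rw [this, (Finset.mem_filter.mp hx).2, (Finset.mem_filter.mp hy).2]
    have hfreec : ∀ c, FreeOn F (treeGraph F Λ ρ) (Tc c) := by
      rintro c ⟨φ, h1, h2⟩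
      exact hfree ⟨φ, fun w => hTc c (h1 w), h2⟩
    have hpoorsub : ∀ T', poorLevels q ρ (l + 1) T' ⊆ poorLevels q ρ l T' := by
      intro T' j hj
      simp only [poorLevels, Finset.mem_filter, Finset.mem_univ, true_and] at hj ⊢
      exact ⟨by omega, hj.2⟩
    let Rc : Finset (Fin b) := Finset.univ.filter fun c =>
      Fintype.card Λ.L ≤ q * ((Tc c).image (ρ j₀)).card
    -- few rich children
    have hrich : Rc.card < a := by
      apply ha
      rintro ⟨g, hgR, hgQ⟩
      obtain ⟨i, hi⟩ := hH g hgQ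
        (fun w => (Tc (g w)).image (ρ j₀)) (fun w => (Finset.mem_filter.mp (hgR w)).2)
      have h1 : ∀ w, ∃ x ∈ Tc (g w), ρ j₀ x ∈ Λ.K i (g w) := by
        intro w
        obtain ⟨s, hs, hsK⟩ := (hi w).2
        obtain ⟨x, hx, rfl⟩ := Finset.mem_image.mp hs
        exact ⟨x, hx, hsK⟩
      choose x hx hxK using h1
      have hxj : ∀ w, x w j₀ = g w := fun w => (Finset.mem_filter.mp (hx w)).2
      have hinj : Function.Injective x := by
        intro w w' h
        apply g.injective
        rw [← hxj w, ← hxj w', h]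
      refine hfree ⟨⟨x, hinj⟩, fun w => hTc _ (hx w), ?_⟩
      intro f hf
      refine ⟨by simpa using F.uniform f hf, j₀, i, ?_, ?_, ?_⟩
      · intro y hy z hz l' hl'
        simp only [Finset.mem_map, Function.Embedding.coeFn_mk] at hy hz
        obtain ⟨w, _, rfl⟩ := hy
        obtain ⟨w', _, rfl⟩ := hz
        exact hT _ (hTc _ (hx w)) _ (hTc _ (hx w')) l' hl'
      · intro y hy
        simp only [Finset.mem_map, Function.Embedding.coeFn_mk] at hy
        obtain ⟨w, _, rfl⟩ := hy
        rw [hxj w]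
        exact hxK w
      · rw [Finset.map_eq_image, Finset.image_image]
        have : (f.image ((fun x => Λ.p i (x j₀)) ∘ (⟨x, hinj⟩ : W ↪ (Fin D → Fin b)))) = f := by
          have h2 : ((fun x => Λ.p i (x j₀)) ∘ (⟨x, hinj⟩ : W ↪ (Fin D → Fin b))) = id := by
            funext w
            show Λ.p i (x w j₀) = w
            rw [hxj w]
            exact (hi w).1
          rw [h2, Finset.image_id]
        rw [this]
        exact hf
    -- bounds for the children
    have hb1 : ∀ c, (Tc c).card ≤ S₀ * b ^ (p + 1) * a ^ k := by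
      intro c
      apply ih (l + 1) (by omega) p (Tc c) (hagree c) (hfreec c)
      intro T' hT' hcard
      exact (Finset.card_le_card (hpoorsub T')).trans (hpoor T' (hT'.trans (hTc c)) hcard)
    have hb2 : ∀ c ∉ Rc, (Tc c).card ≤ S₀ * b ^ p * a ^ k := by
      intro c hc
      have hc' : q * ((Tc c).image (ρ j₀)).card < Fintype.card Λ.L := by
        by_contra h
        push Not at h
        exact hc (Finset.mem_filter.mpr ⟨Finset.mem_univ _, h⟩)
      by_cases hsmall : (Tc c).card < S₀
      · refine hsmall.le.trans ?_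
        rw [mul_assoc]
        apply Nat.le_mul_of_pos_right
        positivity
      · push Not at hsmall
        have hmem : ∀ T' ⊆ Tc c, j₀ ∈ poorLevels q ρ l T' := by
          intro T' hT'
          simp only [poorLevels, Finset.mem_filter, Finset.mem_univ, true_and]
          refine ⟨le_rfl, lt_of_le_of_lt ?_ hc'⟩
          exact Nat.mul_le_mul_left _ (Finset.card_le_card (Finset.image_subset_image hT'))
        have hlt : ∀ T' ⊆ Tc c, T'.card = S₀ → (poorLevels q ρ (l + 1) T').card + 1 ≤ p := by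
          intro T' hT' hcard
          refine le_trans ?_ (hpoor T' (hT'.trans (hTc c)) hcard)
          rw [Nat.succ_le_iff]
          apply Finset.card_lt_card
          rw [Finset.ssubset_iff_of_subset (hpoorsub T')]
          refine ⟨j₀, hmem T' hT', ?_⟩
          simp only [poorLevels, Finset.mem_filter, Finset.mem_univ, true_and, not_and]
          intro h
          exact absurd h (by show ¬ l + 1 ≤ l; omega)
        obtain ⟨T₁, hT₁, hT₁c⟩ := Finset.exists_subset_card_eq hsmall
        have hp : 1 ≤ p := le_trans (Nat.le_add_left _ _) (hlt T₁ hT₁ hT₁c)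
        have := ih (l + 1) (by omega) (p - 1) (Tc c) (hagree c) (hfreec c)
          (fun T' hT' hcard => by have := hlt T' hT' hcard; omega)
        rwa [Nat.sub_add_cancel hp] at this
    have hsum : T.card = ∑ c, (Tc c).card :=
      Finset.card_eq_sum_card_fiberwise (fun x _ => Finset.mem_univ _)
    rw [hsum, ← Finset.sum_add_sum_compl Rc]
    have e1 : ∑ c ∈ Rc, (Tc c).card ≤ (a - 1) * (S₀ * b ^ (p + 1) * a ^ k) := by
      refine (Finset.sum_le_card_nsmul _ _ _ (fun c _ => hb1 c)).trans ?_
      rw [smul_eq_mul]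
      exact Nat.mul_le_mul_right _ (by omega)
    have e2 : ∑ c ∈ Rcᶜ, (Tc c).card ≤ b * (S₀ * b ^ p * a ^ k) := by
      refine (Finset.sum_le_card_nsmul _ _ _
        (fun c hc => hb2 c (Finset.mem_compl.mp hc))).trans ?_
      rw [smul_eq_mul]
      apply Nat.mul_le_mul_right
      exact (Finset.card_le_univ _).trans (by simp)
    refine (add_le_add e1 e2).trans (le_of_eq ?_)
    obtain ⟨m, hm⟩ : ∃ m, a = m + 1 := ⟨a - 1, by omega⟩
    rw [hm, Nat.add_sub_cancel]
    ring

/-- The tree construction increases the size of the sets which are known to be flexible. -/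
theorem treeGraph_locallyFlexible (hr : 2 ≤ r) {F : RGraph r W} (hF : F.edges.Nonempty)
    {Q : RGraph r (Fin b)} {k : ℕ} (hQ : LocallyFlexible F Q k) (hp : Λ.Projects F Q)
    (hs : Λ.Separates (k + 1)) {D : ℕ} (ρ : Fin D → (Fin D → Fin b) → Λ.L) :
    LocallyFlexible F (treeGraph F Λ ρ) (k + 1) := by
  intro A hA2 hAk
  -- the first level where `A` splits
  obtain ⟨l, ⟨x₁, hx₁, y₁, hy₁, hxy₁⟩, hmin⟩ : ∃ l : Fin D, (∃ x ∈ A, ∃ y ∈ A, x l ≠ y l) ∧
      ∀ l' < l, ∀ x ∈ A, ∀ y ∈ A, x l' = y l' := by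
    have hne : (Finset.univ.filter fun l : Fin D => ∃ x ∈ A, ∃ y ∈ A, x l ≠ y l).Nonempty := by
      obtain ⟨x, hx, y, hy, hxy⟩ := Finset.one_lt_card.mp (by omega : 1 < A.card)
      obtain ⟨l, hl⟩ := Function.ne_iff.mp hxy
      exact ⟨l, Finset.mem_filter.mpr ⟨Finset.mem_univ _, x, hx, y, hy, hl⟩⟩
    refine ⟨_, (Finset.mem_filter.mp (Finset.min'_mem _ hne)).2, ?_⟩
    intro l' hl' x hx y hy
    by_contra h
    have hmem : l' ∈ (Finset.univ.filter fun l : Fin D => ∃ x ∈ A, ∃ y ∈ A, x l ≠ y l) :=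
      Finset.mem_filter.mpr ⟨Finset.mem_univ _, x, hx, y, hy, h⟩
    exact absurd hl' (not_lt.mpr (Finset.min'_le _ l' hmem))
  -- the edges are not produced earlier
  have hsplit : ∀ (e : Finset (Fin D → Fin b)) (l' : Fin D) (i : Λ.I), e ⊆ A →
      e.image (fun x => Λ.p i (x l')) ∈ F.edges → l ≤ l' := by
    intro e l' i heA he
    by_contra hlt
    push Not at hlt
    have h1 : (e.image (fun x => Λ.p i (x l'))).card ≤ 1 := by
      rw [Finset.card_le_one]
      intro z hz z' hz'
      obtain ⟨x, hx, rfl⟩ := Finset.mem_image.mp hz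
      obtain ⟨x', hx', rfl⟩ := Finset.mem_image.mp hz'
      rw [hmin l' hlt x (heA hx) x' (heA hx')]
    rw [F.uniform _ he] at h1
    omega
  set C : Finset (Fin b) := A.image (fun x => x l) with hC
  have hCA : C.card ≤ A.card := Finset.card_image_le
  rcases hCA.lt_or_eq with hlt | heq
  · -- some vertices have the same child
    have hC2 : 2 ≤ C.card := by
      apply Finset.one_lt_card.mpr
      exact ⟨x₁ l, Finset.mem_image_of_mem _ hx₁, y₁ l, Finset.mem_image_of_mem _ hy₁, hxy₁⟩
    obtain ⟨g, ⟨c, hc, c', hc', hcc⟩, hg⟩ := hQ C hC2 (by omega)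
    obtain ⟨x, hx, rfl⟩ := Finset.mem_image.mp hc
    obtain ⟨x', hx', rfl⟩ := Finset.mem_image.mp hc'
    refine ⟨fun x => g (x l), ⟨x, hx, x', hx', hcc⟩, ?_⟩
    rintro e ⟨hcard, l', i, h1, h2, h3⟩ heA
    rcases (hsplit e l' i heA h3).eq_or_lt with rfl | hlt'
    · have h4 : e.image (fun x => x l) ∈ Q.edges := by
        apply hp i
        · intro c hc
          obtain ⟨x, hx, rfl⟩ := Finset.mem_image.mp hc
          exact ⟨_, h2 x hx⟩
        · rw [Finset.image_image]
          exact h3
      rcases hg _ h4 (Finset.image_subset_image heA) with ⟨w, hw⟩ | h5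
      · left
        exact ⟨w, fun x hx => hw _ (Finset.mem_image_of_mem _ hx)⟩
      · right
        rw [Finset.image_image] at h5
        exact h5
    · left
      have hne : e.Nonempty := by
        rw [← Finset.card_pos]
        omega
      obtain ⟨x₀, hx₀⟩ := hne
      refine ⟨g (x₀ l), fun x hx => ?_⟩
      show g (x l) = g (x₀ l)
      rw [h1 x hx x₀ hx₀ l hlt']
  · -- all the vertices have different children
    have hinj : Set.InjOn (fun x : Fin D → Fin b => x l) A := Finset.card_image_iff.mp heq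
    -- edges are produced at the level `l`
    have hlevel : ∀ (e : Finset (Fin D → Fin b)) (l' : Fin D) (i : Λ.I), e.card = r → e ⊆ A →
        (∀ x ∈ e, ∀ y ∈ e, ∀ l'' < l', x l'' = y l'') →
        e.image (fun x => Λ.p i (x l')) ∈ F.edges → l = l' := by
      intro e l' i hcard heA h1 h3
      rcases (hsplit e l' i heA h3).eq_or_lt with h | hlt'
      · exact h
      · exfalso
        obtain ⟨x, hx, y, hy, hxy⟩ := Finset.one_lt_card.mp (by omega : 1 < e.card)
        exact hxy (hinj (heA hx) (heA hy) (h1 x hx y hy l hlt'))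
    by_cases hex : ∃ e₀ ∈ (treeGraph F Λ ρ).edges, e₀ ⊆ A
    · obtain ⟨e₀, ⟨hcard₀, l₀, i₀, h1₀, h2₀, h3₀⟩, he₀A⟩ := hex
      have hl₀ := hlevel e₀ l₀ i₀ hcard₀ he₀A h1₀ h3₀
      subst hl₀
      -- the label of a child
      let lab : Fin b → Λ.L := fun c => if h : ∃ x ∈ A, x l = c then ρ l h.choose else
        ρ l x₁
      have hlab : ∀ x ∈ A, lab (x l) = ρ l x := by
        intro x hx
        have h : ∃ x' ∈ A, x' l = x l := ⟨x, hx, rfl⟩
        show (if h : ∃ x' ∈ A, x' l = x l then ρ l h.choose else ρ l x₁) = ρ l x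
        rw [dif_pos h]
        congr 1
        exact hinj h.choose_spec.1 hx h.choose_spec.2
      obtain ⟨g, hg1, hg2⟩ := hs C lab (by omega) i₀
      have himg : ∀ e : Finset (Fin D → Fin b), e ⊆ A → (∀ x ∈ e, ρ l x ∈ Λ.K i₀ (x l)) →
          e.image (fun x => g (x l)) = e.image (fun x => Λ.p i₀ (x l)) := by
        intro e heA h2
        apply Finset.image_congr
        intro x hx
        apply hg1 (x l) (Finset.mem_image_of_mem _ (heA hx))
        rw [hlab x (heA hx)]
        exact h2 x hx
      refine ⟨fun x => g (x l), ?_, ?_⟩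
      · have h4 : 1 < (e₀.image (fun x => g (x l))).card := by
          rw [himg e₀ he₀A h2₀, F.uniform _ h3₀]
          omega
        obtain ⟨z, hz, z', hz', hzz⟩ := Finset.one_lt_card.mp h4
        obtain ⟨x, hx, rfl⟩ := Finset.mem_image.mp hz
        obtain ⟨x', hx', rfl⟩ := Finset.mem_image.mp hz'
        exact ⟨x, he₀A hx, x', he₀A hx', hzz⟩
      · rintro e ⟨hcard, l', i, h1, h2, h3⟩ heA
        have hl' := hlevel e l' i hcard heA h1 h3
        subst hl'
        by_cases hi : i = i₀
        · right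
          subst hi
          rw [himg e heA h2]
          exact h3
        · left
          obtain ⟨w, hw⟩ := hg2 i hi
          refine ⟨w, fun x hx => ?_⟩
          apply hw (x l) (Finset.mem_image_of_mem _ (heA hx))
          rw [hlab x (heA hx)]
          exact h2 x hx
    · push Not at hex
      obtain ⟨w₀, w₁, hw⟩ := nontrivial_of_edges hr hF
      refine ⟨fun x => if x = x₁ then w₀ else w₁, ⟨x₁, hx₁, y₁, hy₁, ?_⟩, ?_⟩
      · show (if x₁ = x₁ then w₀ else w₁) ≠ (if y₁ = x₁ then w₀ else w₁)
        rw [if_pos rfl, if_neg]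
        · exact hw
        · rintro rfl
          exact hxy₁ rfl
      · intro e he heA
        exact absurd heA (hex e he)

end Pool.Agent.Work.MP_f35e27_co
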